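import Pool.Agent.U4.DG.Glob
import Pool.Agent.R838.TW.Cnt

/-!
# Irregular zeros of the derivatives: the final theorems
-/

set_option autoImplicit false

namespace Pool.Agent.U4.DG

open Complex Filter Topology MeasureTheory Set
open scoped ComplexConjugate
open Pool.Agent.Y671.LD (iter_diff)
open Pool.Agent.Y671.GL
open Pool.Agent.Y693.GL (GY)
open Pool.Agent.R838.TW (PL PL.app PL.huge PL.low)

/-- The zeros of the `n`-th derivative of `Λ` with imaginary part in `(T, 2T]`. -/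
def ZW (Λ : ℂ → ℂ) (n : ℕ) (T : ℝ) : Set ℂ := {s | iteratedDeriv n Λ s = 0 ∧ T < s.im ∧ s.im ≤ 2 * T}

/-- those which are not regular -/
def IW (Λ : ℂ → ℂ) (κ ε a : ℝ) (n : ℕ) (T : ℝ) : Set ℂ := {s | s ∈ ZW Λ n T ∧ ¬ RegL Λ κ ε a n s}

/-- many zeros in dyadic windows -/
theorem totw {κ : ℝ} {H X Z : ℂ → ℂ} (hκ2 : 1 / 2 ≤ κ) (hcg : CG κ H X Z) (happ : AppX X) {K : ℝ} (hK : 1 ≤ K) :
    ∃ c T0 : ℝ, 0 < c ∧ 2 ≤ T0 ∧ ∀ (n : ℕ) (T : ℝ), T0 ≤ T → (n : ℝ) ≤ K * Real.log T →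
    ∃ S : Finset ℂ, (∀ s ∈ S, s ∈ ZW X n T) ∧
      c * T * Real.log T ≤ ∑ s ∈ S, (analyticOrderNatAt (iteratedDeriv n X) s : ℝ) := by
  classical
  have h := hcg.cf
  have hκ := h.κ_pos
  obtain ⟨R, T1, hR, hT1, hw⟩ := Pool.Agent.Y423.GL.window h hκ2 happ K hK
  obtain ⟨ρ, hρ⟩ : ∃ ρ : ℝ, ρ = 1600 * R := ⟨_, rfl⟩
  rw [← hρ] at hw
  have hρ0 : 0 < ρ := by rw [hρ]; positivity
  refine ⟨κ / 102400, max T1 (16 * ρ + 4), by positivity, hT1.trans (le_max_left _ _), ?_⟩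
  intro n T hT hn
  have g1 : T1 ≤ T := (le_max_left _ _).trans hT
  have g3 : 16 * ρ + 4 ≤ T := (le_max_right _ _).trans hT
  have g2 : 4 ≤ T := by linarith
  have hT0 : 0 < T := by linarith
  obtain ⟨m, hm⟩ : ∃ m : ℕ, m = ⌊T / (4 * ρ)⌋₊ := ⟨_, rfl⟩
  have hm1 : (m : ℝ) ≤ T / (4 * ρ) := by rw [hm]; exact Nat.floor_le (by positivity)
  have hm2 : T / (4 * ρ) < m + 1 := by rw [hm]; exact Nat.lt_floor_add_one _
  rw [le_div_iff₀ (by positivity)] at hm1
  rw [div_lt_iff₀ (by positivity)] at hm2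
  obtain ⟨tk, htk⟩ : ∃ tk : ℕ → ℝ, tk = fun k : ℕ => T + 3 * ρ * ((k : ℝ) + 1) := ⟨_, rfl⟩
  have htT : ∀ k, T ≤ tk k := by
    intro k
    rw [htk]
    have : 0 ≤ 3 * ρ * ((k : ℝ) + 1) := by positivity
    simp only
    linarith
  have hlogT : 0 ≤ Real.log T := Real.log_nonneg (by linarith)
  have hlogk : ∀ k, Real.log T ≤ Real.log (tk k) := fun k => Real.log_le_log hT0 (htT k)
  choose S hS1 hS2 using fun k : ℕ => hw (tk k) n (by linarith [htT k]) (by
    refine hn.trans ?_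
    exact mul_le_mul_of_nonneg_left (hlogk k) (show (0 : ℝ) ≤ K by linarith))
  refine ⟨(Finset.range m).biUnion S, ?_, ?_⟩
  · intro s hs'
    rw [Finset.mem_biUnion] at hs'
    obtain ⟨k, hk', hsk⟩ := hs'
    obtain ⟨a1, a2⟩ := hS1 k s hsk
    rw [Finset.mem_range] at hk'
    rw [abs_le, htk] at a2
    simp only at a2
    have hk1 : (k : ℝ) + 1 ≤ m := by exact_mod_cast hk'
    have hk0 : (0 : ℝ) ≤ k := Nat.cast_nonneg k
    refine ⟨a1, ?_, ?_⟩
    · nlinarith [a2.1]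
    · have : 3 * ρ * ((k : ℝ) + 1) ≤ 3 * ρ * m := by gcongr
      linarith [a2.2]
  · rw [Finset.sum_biUnion]
    · have hterm : ∀ k ∈ Finset.range m, κ * Real.log T * R / 4 ≤
          ∑ s ∈ S k, (analyticOrderNatAt (iteratedDeriv n X) s : ℝ) := by
        intro k _
        refine le_trans ?_ (hS2 k)
        have h1 := hlogk k
        have : κ * Real.log T * R ≤ κ * Real.log (tk k) * R := by gcongr
        linarith
      calc κ / 102400 * T * Real.log T = (T / (8 * ρ)) * (κ * Real.log T * R / 4) * (1 / 2) := by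
            rw [hρ]
            field_simp
            ring
        _ ≤ m * (κ * Real.log T * R / 4) := by
            have : T / (8 * ρ) ≤ m := by
              rw [div_le_iff₀ (by positivity)]
              linarith
            have h2 : (T / (8 * ρ)) * (κ * Real.log T * R / 4) ≤ m * (κ * Real.log T * R / 4) := by gcongr
            have h3 : 0 ≤ (T / (8 * ρ)) * (κ * Real.log T * R / 4) := by positivity
            linarith
        _ = ∑ k ∈ Finset.range m, κ * Real.log T * R / 4 := by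
            rw [Finset.sum_const, Finset.card_range, nsmul_eq_mul]
        _ ≤ _ := Finset.sum_le_sum hterm
    · intro j _ k _ hjk
      rw [Function.onFun, Finset.disjoint_left]
      intro s hj hk'
      have a1 := abs_le.1 (hS1 j s hj).2
      have a2 := abs_le.1 (hS1 k s hk').2
      rw [htk] at a1 a2
      simp only at a1 a2
      apply hjk
      have b1 : (j : ℝ) - k < 1 := by
        by_contra hc
        push Not at hc
        nlinarith [a1.1, a1.2, a2.1, a2.2]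
      have b2 : (k : ℝ) - j < 1 := by
        by_contra hc
        push Not at hc
        nlinarith [a1.1, a1.2, a2.1, a2.2]
      have c1 : (j : ℝ) < k + 1 := by linarith
      have c2 : (k : ℝ) < j + 1 := by linarith
      have d1 : j < k + 1 := by exact_mod_cast c1
      have d2 : k < j + 1 := by exact_mod_cast c2
      omega

theorem ZW_fin {κ : ℝ} {H X Z : ℂ → ℂ} (hκ : 1 / 2 ≤ κ) (hC : CG κ H X Z) (hA : AppX X) (n : ℕ) {T : ℝ}
    (hT : 0 ≤ T) : (ZW X n T).Finite :=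
  (ZD_fin hκ hC hA n (2 * T)).subset fun _ hs => ⟨hs.1, lt_of_le_of_lt hT hs.2.1, hs.2.2⟩

/-- counting -/
theorem cntw {κ : ℝ} {H X Z : ℂ → ℂ} (hκ : 1 / 2 ≤ κ) (hG : GY κ H X Z) (hA : AppX X) (hL : LowX X)
    (hst0 : ∀ s : ℂ, X s = 0 → |s.re| ≤ 1 / 2) (hH : HugeX X) {ε A : ℝ} (hε : 0 < ε) :
    ∃ c C : ℝ, 0 < c ∧ 0 < C ∧ ∀ (n : ℕ) (T : ℝ), 2 ≤ T → (n : ℝ) ≤ A * Real.log T →
      (nu (iteratedDeriv n X) (IW X κ ε 0 n T) : ℝ) ≤
        C * Real.exp (-(c * n)) * nu (iteratedDeriv n X) (ZW X n T) ∧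
      (nu (iteratedDeriv n X) (IW X κ ε 0 n T) : ℝ) ≤ C * Real.exp (-(c * n)) * T * Real.log T := by
  obtain ⟨c, C, hc, hC, hfin⟩ := irx hκ hG hA hL hst0 hH (A := A) hε
  obtain ⟨A1, hA1⟩ : ∃ A1 : ℝ, A1 = max A 1 := ⟨_, rfl⟩
  have hA11 : 1 ≤ A1 := by rw [hA1]; exact le_max_right _ _
  have hAA1 : A ≤ A1 := by rw [hA1]; exact le_max_left _ _
  obtain ⟨c2, T0, hc2, hT0, htot⟩ := totw hκ hG.cg hA hA11
  have hsub : ∀ n T, IW X κ ε 0 n T ⊆ ZW X n T := fun n T s h => h.1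
  have hexc : ∀ (n : ℕ) (T : ℝ), 2 ≤ T → (n : ℝ) ≤ A * Real.log T →
      (nu (iteratedDeriv n X) (IW X κ ε 0 n T) : ℝ) ≤ C * T * Real.log T * Real.exp (-(c * n)) := by
    intro n T hT hn
    refine nu_le ((ZW_fin hκ hG.cg hA n (by linarith)).subset (hsub n T)) fun S hS =>
      hfin n T hT hn S fun s hs => ?_
    obtain ⟨⟨h1, h2, h3⟩, h4⟩ := hS s hs
    exact ⟨h1, h4, h2, h3⟩
  refine ⟨c, C + C / c2 + Real.exp (c * (A1 * Real.log T0)), hc, by positivity, ?_⟩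
  intro n T hT hn
  have hE := Real.exp_pos (-(c * n))
  have hl0 : 0 < Real.log T := Real.log_pos (by linarith)
  have hZ0 : (0 : ℝ) ≤ nu (iteratedDeriv n X) (ZW X n T) := Nat.cast_nonneg _
  have hT00 : 0 < T := by linarith
  have hn1 : (n : ℝ) ≤ A1 * Real.log T := hn.trans (mul_le_mul_of_nonneg_right hAA1 hl0.le)
  have h8 := hexc n T hT hn
  refine ⟨?_, ?_⟩
  · rcases lt_or_ge T T0 with hT3 | hT3
    · have h4 : 1 ≤ Real.exp (c * (A1 * Real.log T0)) * Real.exp (-(c * n)) := by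
        rw [← Real.exp_add]
        apply Real.one_le_exp
        have h5 : Real.log T ≤ Real.log T0 := Real.log_le_log hT00 hT3.le
        have h6 : (n : ℝ) ≤ A1 * Real.log T0 := hn1.trans (mul_le_mul_of_nonneg_left h5 (by linarith))
        have := mul_le_mul_of_nonneg_left h6 hc.le
        linarith
      calc (nu (iteratedDeriv n X) (IW X κ ε 0 n T) : ℝ) ≤ nu (iteratedDeriv n X) (ZW X n T) :=
            nu_mono (ZW_fin hκ hG.cg hA n hT00.le) (hsub n T)
        _ = 1 * nu (iteratedDeriv n X) (ZW X n T) := by ring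
        _ ≤ (Real.exp (c * (A1 * Real.log T0)) * Real.exp (-(c * n))) *
            nu (iteratedDeriv n X) (ZW X n T) := by gcongr
        _ ≤ _ := by
          have : 0 ≤ (C + C / c2) * Real.exp (-(c * n)) * nu (iteratedDeriv n X) (ZW X n T) := by positivity
          linarith
    · obtain ⟨S, hS, h7⟩ := htot n T hT3 hn1
      have h7' : c2 * T * Real.log T ≤ nu (iteratedDeriv n X) (ZW X n T) :=
        h7.trans (le_nu (ZW_fin hκ hG.cg hA n hT00.le) S hS)
      have h9 : C * T * Real.log T * Real.exp (-(c * n)) ≤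
          C / c2 * Real.exp (-(c * n)) * nu (iteratedDeriv n X) (ZW X n T) := by
        calc C * T * Real.log T * Real.exp (-(c * n)) =
            C / c2 * Real.exp (-(c * n)) * (c2 * T * Real.log T) := by
              field_simp
          _ ≤ _ := by gcongr
      have h10 : 0 ≤ (C + Real.exp (c * (A1 * Real.log T0))) * Real.exp (-(c * n)) *
          nu (iteratedDeriv n X) (ZW X n T) := by
        positivity
      linarith
  · have h9 : 0 ≤ (C / c2 + Real.exp (c * (A1 * Real.log T0))) * Real.exp (-(c * n)) * T * Real.log T := by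
      positivity
    linarith

section shift

variable {Λ : ℂ → ℂ} {u : ℂ} {a : ℝ}

lemma ZW_image (hu : u ≠ 0) (n : ℕ) (T : ℝ) :
    (fun z => (a : ℂ) + z) '' ZW (fun z => u * Λ ((a : ℂ) + z)) n T = ZW Λ n T := by
  ext s
  constructor
  · rintro ⟨z, ⟨h1, h2, h3⟩, rfl⟩
    rw [iter_shift'] at h1
    refine ⟨(mul_eq_zero.1 h1).resolve_left hu, ?_, ?_⟩
    · simpa using h2
    · simpa using h3
  · rintro ⟨h1, h2, h3⟩
    refine ⟨s - a, ⟨?_, ?_, ?_⟩, by simp⟩
    · rw [iter_shift', add_sub_cancel, h1, mul_zero]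
    · simpa using h2
    · simpa using h3

lemma reg_shift (hu : u ≠ 0) {κ ε : ℝ} {n : ℕ} {z : ℂ} :
    RegL (fun z => u * Λ ((a : ℂ) + z)) κ ε 0 n z ↔ RegL Λ κ ε a n ((a : ℂ) + z) := by
  have hz : ∀ (m : ℕ) (w : ℂ), iteratedDeriv m (fun z => u * Λ ((a : ℂ) + z)) w = 0 ↔
      iteratedDeriv m Λ ((a : ℂ) + w) = 0 := by
    intro m w
    rw [iter_shift', mul_eq_zero]
    simp [hu]
  unfold RegL
  have h1 : ((a : ℂ) + z).re = a + z.re := by simp
  have h2 : ((a : ℂ) + z).im = z.im := by simp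
  rw [h1, h2, Ne, hz]
  refine and_congr ?_ (and_congr Iff.rfl (exists_congr fun g => and_congr Iff.rfl (and_congr Iff.rfl
    (and_congr ?_ (and_congr ?_ ?_)))))
  · constructor
    · intro h; linarith
    · intro h; linarith
  · rw [hz, add_assoc]
  · rw [Ne, hz, add_assoc]
  · constructor
    · intro h w hw h3 h4
      have h5 := h (w - a) (by rw [hz, add_sub_cancel]; exact hw) (by simpa using h3) (by simpa using h4)
      rcases h5 with h5 | h5
      · left; rw [← h5]; ring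
      · right
        have : w = (a : ℂ) + (w - a) := by ring
        rw [this, h5]; ring
    · intro h w hw h3 h4
      have h5 := h ((a : ℂ) + w) (by rw [← hz]; exact hw) (by simpa using h3) (by simpa using h4)
      rcases h5 with h5 | h5
      · left; exact add_left_cancel h5
      · right
        rw [add_assoc] at h5
        exact add_left_cancel h5

lemma IW_image (hu : u ≠ 0) (κ ε : ℝ) (n : ℕ) (T : ℝ) :
    (fun z => (a : ℂ) + z) '' IW (fun z => u * Λ ((a : ℂ) + z)) κ ε 0 n T = IW Λ κ ε a n T := by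
  have hZ := ZW_image (Λ := Λ) (a := a) hu n T
  ext s
  constructor
  · rintro ⟨z, ⟨h1, h2⟩, rfl⟩
    exact ⟨by rw [← hZ]; exact ⟨z, h1, rfl⟩, fun h3 => h2 ((reg_shift hu).2 h3)⟩
  · rintro ⟨h1, h2⟩
    rw [← hZ] at h1
    obtain ⟨z, h3, rfl⟩ := h1
    exact ⟨z, ⟨h3, fun h4 => h2 ((reg_shift hu).1 h4)⟩, rfl⟩

/-- **Main theorem**, for one completed L-function. -/
theorem deriv_spacing {κ : ℝ} {H Z : ℂ → ℂ} (hκ : 1 / 2 ≤ κ) (hu : u ≠ 0)
    (hG : GY κ H (fun z => u * Λ ((a : ℂ) + z)) Z) (hA : AppX (fun z => u * Λ ((a : ℂ) + z)))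
    (hL : LowX (fun z => u * Λ ((a : ℂ) + z)))
    (hst : ∀ s : ℂ, (fun z => u * Λ ((a : ℂ) + z)) s = 0 → |s.re| ≤ 1 / 2)
    (hH : HugeX (fun z => u * Λ ((a : ℂ) + z))) :
    (∀ (n : ℕ) (T : ℝ), 0 ≤ T → (ZW Λ n T).Finite) ∧ ∀ ε A : ℝ, 0 < ε → ∃ c C : ℝ, 0 < c ∧ 0 < C ∧
      ∀ (n : ℕ) (T : ℝ), 2 ≤ T → (n : ℝ) ≤ A * Real.log T →
      (nu (iteratedDeriv n Λ) (IW Λ κ ε a n T) : ℝ) ≤
        C * Real.exp (-(c * n)) * nu (iteratedDeriv n Λ) (ZW Λ n T) ∧
      (nu (iteratedDeriv n Λ) (IW Λ κ ε a n T) : ℝ) ≤ C * Real.exp (-(c * n)) * T * Real.log T := by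
  have hΛ : Differentiable ℂ Λ := by
    have h1 : Differentiable ℂ (fun s => u⁻¹ * (fun z => u * Λ ((a : ℂ) + z)) (s - a)) :=
      (hG.cg.cf.diff.comp (by fun_prop)).const_mul _
    have h2 : (fun s => u⁻¹ * (fun z => u * Λ ((a : ℂ) + z)) (s - a)) = Λ := by
      funext s
      simp only [add_sub_cancel]
      rw [inv_mul_cancel_left₀ hu]
    rwa [h2] at h1
  have hfin := fun (n : ℕ) (T : ℝ) (hT : 0 ≤ T) => ZW_fin hκ hG.cg hA n hT
  have e0 : ∀ n : ℕ, iteratedDeriv n (fun z => u * Λ ((a : ℂ) + z)) =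
      fun z => u * iteratedDeriv n Λ ((a : ℂ) + z) := fun n => funext fun z => iter_shift' u a Λ n z
  refine ⟨fun n T hT => ?_, fun ε A hε => ?_⟩
  · rw [← ZW_image (a := a) hu]
    exact (hfin n T hT).image _
  · obtain ⟨c, C, hc, hC, h1⟩ := cntw hκ hG hA hL hst hH (A := A) hε
    refine ⟨c, C, hc, hC, fun n T hT hn => ?_⟩
    have hT0 : 0 ≤ T := by linarith
    have e1 : nu (iteratedDeriv n (fun z => u * Λ ((a : ℂ) + z)))
        (ZW (fun z => u * Λ ((a : ℂ) + z)) n T) = nu (iteratedDeriv n Λ) (ZW Λ n T) := by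
      rw [e0, nu_shift (iter_diff hΛ n) hu a (hfin n T hT0), ZW_image hu]
    have e2 : nu (iteratedDeriv n (fun z => u * Λ ((a : ℂ) + z)))
        (IW (fun z => u * Λ ((a : ℂ) + z)) κ ε 0 n T) = nu (iteratedDeriv n Λ) (IW Λ κ ε a n T) := by
      rw [e0, nu_shift (iter_diff hΛ n) hu a ((hfin n T hT0).subset fun s h => h.1), IW_image hu]
    rw [← e1, ← e2]
    exact h1 n T hT hn

/-- **Main theorem**, for products of completed L-functions. -/
theorem PL_deriv_spacing {κ : ℝ} (hκ : 1 / 2 ≤ κ) (h : PL κ (fun z => u * Λ ((a : ℂ) + z))) (hu : u ≠ 0) :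
    (∀ (n : ℕ) (T : ℝ), 0 ≤ T → (ZW Λ n T).Finite) ∧ ∀ ε A : ℝ, 0 < ε → ∃ c C : ℝ, 0 < c ∧ 0 < C ∧
      ∀ (n : ℕ) (T : ℝ), 2 ≤ T → (n : ℝ) ≤ A * Real.log T →
      (nu (iteratedDeriv n Λ) (IW Λ κ ε a n T) : ℝ) ≤
        C * Real.exp (-(c * n)) * nu (iteratedDeriv n Λ) (ZW Λ n T) ∧
      (nu (iteratedDeriv n Λ) (IW Λ κ ε a n T) : ℝ) ≤ C * Real.exp (-(c * n)) * T * Real.log T := by
  obtain ⟨H, Z, hG⟩ := h.gy
  exact deriv_spacing hκ hu hG h.app h.low h.strip h.huge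

end shift

end Pool.Agent.U4.DG
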