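import Pool.Agent.U4.DG.Loc
import Pool.Agent.R838.LD.UNG

/-!
# The local situation for derivatives whose order is comparable to the logarithm of the height
-/

set_option autoImplicit false

namespace Pool.Agent.U4.DG

open Complex Filter Topology MeasureTheory Set
open Pool.Agent.H24R2.JP (Om)
open Pool.Agent.H24R2.DZ (ra NN)
open Pool.Agent.H986R2.K4 (QQ)
open Pool.Agent.Y671.LD
open Pool.Agent.R838.LD.Y46 (xsymm far_le Om_nonneg FarOK_mono fdiff)

variable {F : ℂ → ℂ}

/-- size near the axis at heights with `FarOK` -/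
def NearI (F : ℂ → ℂ) : Prop := ∀ R ε : ℝ, 1 ≤ R → 0 < ε → ∃ R' η T0 : ℝ, 1 ≤ R' ∧ 0 < η ∧ 2 ≤ T0 ∧
  ∀ t ε0 : ℝ, T0 ≤ t → ε ≤ ε0 → ε0 ≤ 1 / 2 → FarOK F R' ε0 η t →
  ∀ z : ℂ, |z.re| ≤ ε0 → ‖z‖ ≤ R →
    ‖F (I * t + z)‖ ≤ ‖F (I * t + 1)‖ * Real.exp (-((1 - ε0 - ε) * Om t))

theorem qq_far (hF : Differentiable ℂ F) (hs : ∀ z : ℂ, F (-((starRingEnd ℂ) z)) = (starRingEnd ℂ) (F z))
    (hN : NearI F) {κ c1 X η' : ℝ} (hκ : 0 < κ) (hκ1 : κ ≤ 1 / 2) (hc : 0 < c1) (hc1 : c1 ≤ 1)
    (hcX : c1 ≤ X) (hη' : 0 < η') : ∃ R ε0 η T0 : ℝ, 1 ≤ R ∧ 0 < ε0 ∧ 0 < η ∧ 2 ≤ T0 ∧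
    ∀ (t t' : ℝ) (n : ℕ), T0 ≤ t' → |t - t'| ≤ 1 → c1 * Om t' ≤ n → n ≤ X * Om t' →
      FarOK F R ε0 η t' → QQ κ 6 n η' (fun z => F (I * t + ((n / Om t' : ℝ) : ℂ) * z)) := by
  have hX : 0 < X := by linarith
  obtain ⟨ε0, hε0⟩ : ∃ ε0 : ℝ, ε0 = c1 / 8 := ⟨_, rfl⟩
  have hε00 : 0 < ε0 := by rw [hε0]; positivity
  have hε01 : ε0 ≤ 1 / 2 := by rw [hε0]; linarith
  obtain ⟨R1, η1, T1, hR1, hη1, hT1, H1⟩ := hN (6 * X + 2) ε0 (by linarith) hε00
  obtain ⟨η, hη⟩ : ∃ η : ℝ, η = min (min η1 η') (min (κ / 20) (c1 / 8)) := ⟨_, rfl⟩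
  have hη0 : 0 < η := by rw [hη]; exact lt_min (lt_min hη1 hη') (lt_min (by positivity) (by positivity))
  have hηη1 : η ≤ η1 := by rw [hη]; exact (min_le_left _ _).trans (min_le_left _ _)
  have hηη' : η ≤ η' := by rw [hη]; exact (min_le_left _ _).trans (min_le_right _ _)
  have hηκ : η ≤ κ / 20 := by rw [hη]; exact (min_le_right _ _).trans (min_le_left _ _)
  have hηc : η ≤ c1 / 8 := by rw [hη]; exact (min_le_right _ _).trans (min_le_right _ _)
  refine ⟨max R1 (6 * X + 2), ε0, η, max T1 3, hR1.trans (le_max_left _ _), hε00, hη0,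
    hT1.trans (le_max_left _ _), ?_⟩
  intro t t' n ht htt hn1 hn2 hFar
  have hRX : 6 * X + 2 ≤ max R1 (6 * X + 2) := le_max_right _ _
  have hRR : R1 ≤ max R1 (6 * X + 2) := le_max_left _ _
  generalize max R1 (6 * X + 2) = R at hFar hRX hRR
  have ht1 : T1 ≤ t' := (le_max_left _ _).trans ht
  have ht3 : 3 ≤ t' := (le_max_right _ _).trans ht
  have hOm : 0 < Om t' := by
    unfold Om
    have := Real.log_pos (show (1 : ℝ) < t' by linarith)
    positivity
  obtain ⟨r, hr⟩ : ∃ r : ℝ, r = n / Om t' := ⟨_, rfl⟩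
  have hrn : r * Om t' = n := by rw [hr]; field_simp
  have hrc : c1 ≤ r := by rw [hr, le_div_iff₀ hOm]; exact hn1
  have hrX : r ≤ X := by rw [hr, div_le_iff₀ hOm]; exact hn2
  have hr0 : 0 < r := hc.trans_le hrc
  rw [← hr]
  obtain ⟨W, hW⟩ : ∃ W : ℂ → ℂ, W = fun z => I * ((t - t' : ℝ) : ℂ) + (r : ℂ) * z := ⟨_, rfl⟩
  have hpt : ∀ z : ℂ, I * t + (r : ℂ) * z = I * t' + W z := by
    intro z; rw [hW]; push_cast; ring
  have hWre : ∀ z : ℂ, (W z).re = r * z.re := fun z => by rw [hW]; simp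
  have hWn : ∀ z : ℂ, ‖z‖ ≤ 6 → ‖W z‖ ≤ 6 * r + 1 := by
    intro z hz
    rw [hW]
    refine (norm_add_le _ _).trans ?_
    rw [norm_mul, Complex.norm_I, one_mul, Complex.norm_real, Real.norm_eq_abs, norm_mul,
      Complex.norm_real, Real.norm_eq_abs, abs_of_pos hr0]
    nlinarith
  have hWR : ∀ z : ℂ, ‖z‖ ≤ 6 → ‖W z‖ ≤ R := by
    intro z hz
    have := hWn z hz
    nlinarith
  have hld : ∀ z : ℂ, logDeriv (fun z : ℂ => F (I * t + r * z)) z =
      r * logDeriv F (I * t + r * z) := by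
    intro z
    have hlin : HasDerivAt (fun z : ℂ => I * t + (r : ℂ) * z) (r : ℂ) z := by
      have := ((hasDerivAt_id z).const_mul (r : ℂ)).const_add (I * (t : ℂ))
      rw [mul_one] at this
      exact this
    have h1 : HasDerivAt (fun z : ℂ => F (I * t + (r : ℂ) * z))
        (deriv F (I * t + r * z) * r) z :=
      HasDerivAt.comp (h₂ := F) z (hF (I * t + r * z)).hasDerivAt hlin
    rw [logDeriv_apply, logDeriv_apply, h1.deriv]
    ring
  have hrκ : ε0 ≤ (1 - κ) * r := by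
    have : (1 / 2) * r ≤ (1 - κ) * r := mul_le_mul_of_nonneg_right (by linarith) hr0.le
    rw [hε0]; linarith
  have h1re : ε0 ≤ (W 1).re := by
    rw [hWre, Complex.one_re, mul_one, hε0]; linarith
  have h1n : ‖W 1‖ ≤ r + 1 := by
    rw [hW]
    refine (norm_add_le _ _).trans ?_
    rw [norm_mul, Complex.norm_I, one_mul, Complex.norm_real, Real.norm_eq_abs, norm_mul,
      Complex.norm_real, Real.norm_eq_abs, abs_of_pos hr0, norm_one]
    linarith
  have h1R : ‖W 1‖ ≤ R := by linarith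
  refine ⟨?_, ?_, ?_, ?_⟩
  · intro z
    exact (fdiff hF t (r * z)).comp z ((differentiable_id z).const_mul (r : ℂ))
  · intro z
    have := xsymm hs t (r * z)
    rw [← this]
    congr 2
    simp
  · intro z h1 h2
    have h3 : ε0 ≤ (W z).re := by
      rw [hWre]
      have : r * (1 - κ) ≤ r * z.re := mul_le_mul_of_nonneg_left h1 hr0.le
      linarith
    obtain ⟨h5, h6⟩ := hFar _ h3 (hWR z h2)
    show F (I * t + r * z) ≠ 0 ∧ _
    rw [hld, hpt]
    refine ⟨h5, ?_⟩
    have h7 : (r : ℂ) * logDeriv F (I * t' + W z) - (n : ℂ) =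
        r * (logDeriv F (I * t' + W z) - (Om t' : ℂ)) := by
      have : (n : ℂ) = ((r * Om t' : ℝ) : ℂ) := by rw [hrn]; norm_cast
      rw [this]
      push_cast
      ring
    rw [h7, norm_mul, Complex.norm_real, Real.norm_eq_abs, abs_of_pos hr0]
    calc r * ‖logDeriv F (I * t' + W z) - (Om t' : ℂ)‖ ≤ r * (η * Om t') :=
          mul_le_mul_of_nonneg_left h6 hr0.le
      _ ≤ r * (η' * Om t') := by gcongr
      _ = η' * (r * Om t') := by ring
      _ = η' * n := by rw [hrn]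
  · have key : ∀ z : ℂ, 0 ≤ z.re → z.re ≤ 1 - κ → ‖z‖ ≤ 6 →
        ‖F (I * t + r * z)‖ ≤ ‖F (I * t + r * 1)‖ * Real.exp (-(κ / 2 * n)) := by
      intro z hz0 hz hz6
      rw [hpt, hpt]
      rcases le_or_gt ε0 (W z).re with h3 | h3
      · have h5 := far_le hF hFar (u := W 1) (v := W z) h1re h1R h3 (hWR z hz6)
        refine h5.trans (mul_le_mul_of_nonneg_left (Real.exp_le_exp.2 ?_) (norm_nonneg _))
        rw [hWre, hWre, Complex.one_re]
        have h6 : ‖W z - W 1‖ ≤ 7 * r := by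
          have e : W z - W 1 = r * (z - 1) := by rw [hW]; ring
          rw [e, norm_mul, Complex.norm_real, Real.norm_eq_abs, abs_of_pos hr0]
          have : ‖z - 1‖ ≤ 7 := by
            calc ‖z - 1‖ ≤ ‖z‖ + ‖(1 : ℂ)‖ := norm_sub_le _ _
              _ ≤ 6 + 1 := by rw [norm_one]; linarith
              _ = 7 := by norm_num
          nlinarith
        have h7 : η * Om t' * ‖W z - W 1‖ ≤ κ / 20 * Om t' * (7 * r) := by gcongr
        have h8 : Om t' * (r * z.re - r * 1) ≤ Om t' * (r * (1 - κ) - r * 1) := by gcongr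
        have h9 : κ / 2 * n = κ / 2 * (r * Om t') := by rw [hrn]
        rw [h9]
        have h10 : 0 ≤ κ * (r * Om t') := by positivity
        nlinarith
      · have h5 : |(W z).re| ≤ ε0 := by
          rw [abs_le]
          refine ⟨?_, h3.le⟩
          rw [hWre]
          have := mul_nonneg hr0.le hz0
          linarith
        have hFar1 : FarOK F R1 ε0 η1 t' := FarOK_mono (by linarith) hFar hRR le_rfl hηη1
        have h6 := H1 t' ε0 ht1 le_rfl hε01 hFar1 (W z) h5 (by
          have := hWn z hz6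
          linarith)
        have h7 := far_le hF hFar (u := W 1) (v := 1) h1re h1R
          (by rw [Complex.one_re]; linarith) (by rw [norm_one]; linarith)
        refine h6.trans ?_
        have h8 : ‖(1 : ℂ) - W 1‖ ≤ r + 2 := by
          refine (norm_sub_le _ _).trans ?_
          rw [norm_one]
          linarith
        calc ‖F (I * t' + 1)‖ * Real.exp (-((1 - ε0 - ε0) * Om t'))
            ≤ (‖F (I * t' + W 1)‖ * Real.exp (Om t' * ((1 : ℂ).re - (W 1).re) +
                η * Om t' * ‖(1 : ℂ) - W 1‖)) * Real.exp (-((1 - ε0 - ε0) * Om t')) := by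
              gcongr
          _ = ‖F (I * t' + W 1)‖ * Real.exp (Om t' * (1 - r) + η * Om t' * ‖(1 : ℂ) - W 1‖ +
                -((1 - ε0 - ε0) * Om t')) := by
              rw [mul_assoc, ← Real.exp_add, Complex.one_re, hWre, Complex.one_re, mul_one]
          _ ≤ _ := by
              refine mul_le_mul_of_nonneg_left (Real.exp_le_exp.2 ?_) (norm_nonneg _)
              have h9 : η * Om t' * ‖(1 : ℂ) - W 1‖ ≤ c1 / 8 * Om t' * (r + 2) := by gcongr
              have h10 : κ / 2 * n = κ / 2 * (r * Om t') := by rw [hrn]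
              rw [h10, hε0]
              have h11 : κ / 2 * (r * Om t') ≤ 1 / 4 * (r * Om t') := by
                apply mul_le_mul_of_nonneg_right _ (by positivity)
                linarith
              have h12 : c1 * Om t' ≤ r * Om t' := mul_le_mul_of_nonneg_right hrc hOm.le
              have h13 : c1 * (r * Om t') ≤ 1 * (r * Om t') :=
                mul_le_mul_of_nonneg_right hc1 (by positivity)
              nlinarith
    intro z hz hz'
    show ‖F (I * t + r * z)‖ ≤ ‖F (I * t + r * 1)‖ * Real.exp (-(κ / 2 * n))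
    rcases le_or_gt 0 z.re with h0 | h0
    · rw [abs_of_nonneg h0] at hz
      exact key z h0 hz hz'
    · rw [abs_of_neg h0] at hz
      have h3 := key (-((starRingEnd ℂ) z)) (by simp; linarith) (by simpa using hz) (by simpa using hz')
      have h4 : F (I * t + r * (-((starRingEnd ℂ) z))) =
          (starRingEnd ℂ) (F (I * t + r * z)) := by
        rw [← xsymm hs]
        congr 2
        simp
      rw [h4, Complex.norm_conj] at h3
      exact h3

end Pool.Agent.U4.DG
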