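import Pool.Agent.U4.DG.Irr
import Pool.Agent.U4.DG.Far

/-!
# Irregular zeros of the derivatives in dyadic windows
-/

set_option autoImplicit false

namespace Pool.Agent.U4.DG

open Complex Filter Topology MeasureTheory Set
open Pool.Agent.H24R2.JP (Om)
open Pool.Agent.H24R2.DZ (ra NN SCount)
open Pool.Agent.Y671.LD
open Pool.Agent.R838.LD.Y46 (FarOK_mono)

variable {F : ℂ → ℂ}

/-- at good heights there is a next zero at the right distance -/
theorem nx_GJ (hF : Differentiable ℂ F) {ε : ℝ} (hε : 0 < ε) (hε1 : ε ≤ 1 / 4) :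
    ∃ η : ℝ, ∃ n0 : ℕ, 0 < η ∧ 1 ≤ n0 ∧ ∀ (T : ℝ) (n : ℕ) (s : ℂ), 2 ≤ T → n0 ≤ n →
      iteratedDeriv n F s = 0 → s.re = 0 → GJ F η T n 0 s.im → Nx F n (Real.log T / 2) (3 * ε) s := by
  obtain ⟨η1, n1, hη1, H⟩ := nx_of hε hε1
  refine ⟨min η1 (ε / 100), max n1 1, lt_min hη1 (by positivity), le_max_right _ _, ?_⟩
  intro T n s hT hn hs hre hG
  have hn1 : n1 ≤ n := (le_max_left _ _).trans hn
  have hn2 : 1 ≤ n := (le_max_right _ _).trans hn
  have hn' : (1 : ℝ) ≤ n := by exact_mod_cast hn2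
  obtain ⟨t', ht', hNN⟩ := hG
  simp only [pow_zero, one_mul] at ht' hNN
  have hr : 0 < ra T n := ra_pos hT (by positivity)
  have hlog : 0 < Real.log T := Real.log_pos (by linarith)
  have hrc : ((ra T n : ℝ) : ℂ) ≠ 0 := by exact_mod_cast hr.ne'
  have hQ := toQQa (η' := η1) hε (by linarith) (lt_min hη1 (by positivity)).le (min_le_right _ _)
    (min_le_left _ _) hNN ((s.im - t') / ra T n) (by
      rw [abs_div, abs_of_pos hr, div_le_iff₀ hr]
      linarith)
  have e : (fun z : ℂ => F (I * t' + (ra T n : ℝ) * (z + (((s.im - t') / ra T n : ℝ) : ℂ) * I))) =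
      fun z : ℂ => F (s + (ra T n : ℝ) * z) := by
    funext z
    congr 1
    have hs' : s = I * (s.im : ℂ) := by
      apply Complex.ext
      · simp [hre]
      · simp
    rw [mul_add]
    have e2 : ((ra T n : ℝ) : ℂ) * ((((s.im - t') / ra T n : ℝ) : ℂ) * I) = I * s.im - I * t' := by
      push_cast
      field_simp
    rw [e2]
    conv_rhs => rw [hs']
    ring
  rw [e] at hQ
  have h1 := H n F s (ra T n) hn1 hr hF hQ hs
  have e3 : (n : ℝ) / ra T n = Real.log T / 2 := by
    unfold ra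
    field_simp
  rwa [e3] at h1

/-- at heights with `FarOK` there is a next zero at the right distance -/
theorem nx_far (hF : Differentiable ℂ F) (hsym : ∀ z : ℂ, F (-((starRingEnd ℂ) z)) = (starRingEnd ℂ) (F z))
    (hN : NearI F) {ε c1 X : ℝ} (hε : 0 < ε) (hε1 : ε ≤ 1 / 4) (hc : 0 < c1) (hc1 : c1 ≤ 1) (hcX : c1 ≤ X) :
    ∃ R ε0 η T0 : ℝ, ∃ n0 : ℕ, 1 ≤ R ∧ 0 < ε0 ∧ 0 < η ∧ 2 ≤ T0 ∧
      ∀ (t' : ℝ) (n : ℕ) (s : ℂ), T0 ≤ t' → n0 ≤ n → |s.im - t'| ≤ 1 → c1 * Om t' ≤ n → n ≤ X * Om t' →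
      iteratedDeriv n F s = 0 → s.re = 0 → FarOK F R ε0 η t' → Nx F n (Om t') (3 * ε) s := by
  obtain ⟨η1, n1, hη1, H⟩ := nx_of hε hε1
  obtain ⟨R, ε0, η, T0, hR, hε0, hη, hT0, H2⟩ := qq_far hF hsym hN hε (by linarith : ε ≤ 1 / 2) hc hc1 hcX hη1
  refine ⟨R, ε0, η, max T0 3, n1, hR, hε0, hη, hT0.trans (le_max_left _ _), ?_⟩
  intro t' n s ht hn hst hn1 hn2 hs hre hFar
  have ht0 : T0 ≤ t' := (le_max_left _ _).trans ht
  have ht3 : 3 ≤ t' := (le_max_right _ _).trans ht
  have hOm : 0 < Om t' := by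
    unfold Om
    have := Real.log_pos (show (1 : ℝ) < t' by linarith)
    positivity
  have hn0 : (0 : ℝ) < n := lt_of_lt_of_le (by positivity) hn1
  have hQ := H2 s.im t' n ht0 hst hn1 hn2 hFar
  have hs' : I * (s.im : ℂ) = s := by
    apply Complex.ext
    · simp [hre]
    · simp
  rw [hs'] at hQ
  have h1 := H n F s (n / Om t') hn (by positivity) hF hQ hs
  have e3 : (n : ℝ) / (n / Om t') = Om t' := by field_simp
  rwa [e3] at h1

/-- Zeros on the axis near heights without `FarOK`. -/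
theorem midB {B K : ℝ} (hD : DD B K F) (h5 : Unt F) {R ε0 η A : ℝ} (hR : 1 ≤ R) (hε0 : 0 < ε0) (hη : 0 < η)
    (hA : 1 ≤ A) :
    ∃ c C T0 : ℝ, 0 < c ∧ 0 < C ∧ 2 ≤ T0 ∧ ∀ (T : ℝ) (n : ℕ), T0 ≤ T → (n : ℝ) ≤ A * Real.log T →
    ∀ S : Finset ℂ, (∀ s ∈ S, iteratedDeriv n F s = 0 ∧ T < s.im ∧ s.im ≤ 2 * T ∧
      ∀ t' : ℝ, |s.im - t'| ≤ 1 / 2 → ¬ FarOK F R ε0 η t') →
    ∑ s ∈ S, wt F n s ≤ C * T * Real.exp (-(c * n)) * Real.log T := by
  obtain ⟨c, C, T1, hc, hC, hT1, h⟩ := hD.top R ε0 η hR hε0 hη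
  obtain ⟨C5, T5, hC5, hT5, hunit⟩ := h5 (2 * A) (by linarith)
  refine ⟨c / A, 6 * C5 * C, max (max T1 (2 * T5)) 8, by positivity, by positivity,
    hT1.trans ((le_max_left _ _).trans (le_max_left _ _)), ?_⟩
  intro T n hT hn S hS
  have hTT1 : T1 ≤ T := ((le_max_left _ _).trans (le_max_left _ _)).trans hT
  have hTT5 : 2 * T5 ≤ T := ((le_max_right _ _).trans (le_max_left _ _)).trans hT
  have hT8 : 8 ≤ T := (le_max_right _ _).trans hT
  have hT0 : 0 < T := by linarith
  have hL0 : 0 < Real.log T := Real.log_pos (by linarith)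
  have hlog3 : Real.log (3 * T) ≤ 2 * Real.log T := by
    have h1 : Real.log (3 * T) ≤ Real.log (T * T) := Real.log_le_log (by positivity) (by nlinarith)
    rw [Real.log_mul hT0.ne' hT0.ne'] at h1
    linarith
  have hloghalf : ∀ x : ℝ, T / 2 ≤ x → (n : ℝ) ≤ 2 * A * Real.log x := by
    intro x hx
    have h10 : Real.log (T / 2) ≤ Real.log x := Real.log_le_log (by positivity) hx
    have h11 : Real.log T ≤ 2 * Real.log (T / 2) := by
      have h1 : Real.log T ≤ Real.log (T / 2 * (T / 2)) := Real.log_le_log (by positivity) (by nlinarith)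
      rw [Real.log_mul (by positivity) (by positivity)] at h1
      linarith
    calc (n : ℝ) ≤ A * Real.log T := hn
      _ ≤ A * (2 * Real.log x) := by
        apply mul_le_mul_of_nonneg_left _ (by linarith)
        linarith
      _ = _ := by ring
  classical
  have h10 := cover (wt F n) (wt_nonneg F n) (fun s => s.im) (1 / 2) (6 * C5 * Real.log T)
    (by norm_num) (by positivity) S _ (C * T ^ (1 - c)) (by positivity)
    (by
      intro s hs
      obtain ⟨-, hs1, hs2, hs3⟩ := hS s hs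
      intro x hx
      refine ⟨by linarith [hx.1], by linarith [hx.2], hs3 x ?_⟩
      rw [abs_le]; constructor <;> linarith [hx.1, hx.2])
    (h T hTT1)
    (by
      intro s0 hs0
      obtain ⟨-, hs1, hs2, -⟩ := hS s0 hs0
      have h11 := window F (by linarith) hC5 hT5 hunit n (s0.im - 1) 2 (by linarith)
        (hloghalf _ (by linarith)) (by norm_num)
        (S.filter (fun s' => |s'.im - s0.im| ≤ 2 * (1 / 2))) (by
          intro s hs
          rw [Finset.mem_filter] at hs
          obtain ⟨hz, hs3, hs4, -⟩ := hS s hs.1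
          have := abs_le.1 hs.2
          exact ⟨by linarith, by linarith, hz⟩)
      refine h11.trans ?_
      have h12 : Real.log (s0.im - 1 + 2) ≤ 2 * Real.log T :=
        (Real.log_le_log (by linarith) (by linarith)).trans hlog3
      calc ((2 : ℝ) + 1) * (C5 * Real.log (s0.im - 1 + 2)) ≤ (2 + 1) * (C5 * (2 * Real.log T)) := by gcongr
        _ = 6 * C5 * Real.log T := by ring)
  refine h10.trans ?_
  have hTc : T ^ (1 - c) = T * Real.exp (-(c * Real.log T)) := by
    rw [Real.rpow_sub hT0, Real.rpow_one, Real.rpow_def_of_pos hT0, div_eq_mul_inv, ← Real.exp_neg]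
    congr 3
    ring
  have he : Real.exp (-(c * Real.log T)) ≤ Real.exp (-(c / A * n)) := by
    apply Real.exp_le_exp.2
    have : c / A * n ≤ c / A * (A * Real.log T) := mul_le_mul_of_nonneg_left hn (by positivity)
    have e : c / A * (A * Real.log T) = c * Real.log T := by field_simp
    linarith
  rw [hTc]
  calc 6 * C5 * Real.log T * (C * (T * Real.exp (-(c * Real.log T)))) / (2 * (1 / 2))
      = 6 * C5 * C * T * Real.exp (-(c * Real.log T)) * Real.log T := by ring
    _ ≤ 6 * C5 * C * T * Real.exp (-(c / A * n)) * Real.log T := by gcongr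

set_option maxHeartbeats 8000000 in
/-- **Irregular zeros in dyadic windows.** -/
theorem dyi {B K : ℝ} (hD : DD B K F) (hN : NearI F) (hbad : SDyF F) (h4 : SCount) (h5 : Unt F)
    {ε A : ℝ} (hε : 0 < ε) (hε1 : ε ≤ 1 / 4) (hA : 1 ≤ A) :
    ∃ c C T0 : ℝ, 0 < c ∧ 0 < C ∧ 2 ≤ T0 ∧ ∀ (T : ℝ) (n : ℕ), T0 ≤ T → (n : ℝ) ≤ A * Real.log T →
    ∀ S : Finset ℂ, (∀ s ∈ S, iteratedDeriv n F s = 0 ∧ ¬ Reg F n (Om s.im) (4 * ε) s ∧
      T < s.im ∧ s.im ≤ 2 * T) →
    ∑ s ∈ S, wt F n s ≤ C * T * Real.exp (-(c * n)) * Real.log T := by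
  classical
  have hF := hD.diff
  obtain ⟨cb, Cb, Tb, hcb, hCb, hTb, Hb⟩ := hbad
  obtain ⟨η1, n1, hη1, hn1, HG⟩ := nx_GJ hF hε hε1
  obtain ⟨c2, C2, T2, n2, hc2, hC2, hT2, HA⟩ := midA hD h4 h5 η1 hη1
  obtain ⟨R, ε0, η3, T3, n3, hR, hε0, hη3, hT3, HF⟩ := nx_far hF hD.symm hN (c1 := 1 / 400) (X := 4 * A) hε hε1
    (by norm_num) (by norm_num) (by linarith)
  obtain ⟨c4, C4, T4, hc4, hC4, hT4, HB⟩ := midB hD h5 hR hε0 hη3 hA
  obtain ⟨C5, T5, hC5, hT5, hunit⟩ := h5 (2 * A) (by linarith)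
  obtain ⟨m, hm⟩ : ∃ m : ℕ, m = max n1 (max n2 n3) := ⟨_, rfl⟩
  have hm1 : n1 ≤ m := by rw [hm]; exact le_max_left _ _
  have hm2 : n2 ≤ m := by rw [hm]; exact (le_max_left _ _).trans (le_max_right _ _)
  have hm3 : n3 ≤ m := by rw [hm]; exact (le_max_right _ _).trans (le_max_right _ _)
  obtain ⟨c, hc⟩ : ∃ c : ℝ, c = min cb (min c2 c4) := ⟨_, rfl⟩
  have hc0 : 0 < c := by rw [hc]; exact lt_min hcb (lt_min hc2 hc4)
  have hccb : c ≤ cb := by rw [hc]; exact min_le_left _ _
  have hcc2 : c ≤ c2 := by rw [hc]; exact (min_le_right _ _).trans (min_le_left _ _)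
  have hcc4 : c ≤ c4 := by rw [hc]; exact (min_le_right _ _).trans (min_le_right _ _)
  refine ⟨c, 12 * Cb + C2 + C4 + 4 * C5 * Real.exp (c * m),
    max (max (max Tb T2) (max (2 * T3) T4)) (max (2 * T5) (Real.exp (4 / ε + 8))), hc0, by positivity, ?_, ?_⟩
  · exact hTb.trans ((le_max_left _ _).trans ((le_max_left _ _).trans (le_max_left _ _)))
  intro T n hT hn S hS
  have hTb' : Tb ≤ T := ((le_max_left _ _).trans ((le_max_left _ _).trans (le_max_left _ _))).trans hT
  have hT2' : T2 ≤ T := ((le_max_right _ _).trans ((le_max_left _ _).trans (le_max_left _ _))).trans hT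
  have hT3' : 2 * T3 ≤ T := ((le_max_left _ _).trans ((le_max_right _ _).trans (le_max_left _ _))).trans hT
  have hT4' : T4 ≤ T := ((le_max_right _ _).trans ((le_max_right _ _).trans (le_max_left _ _))).trans hT
  have hT5' : 2 * T5 ≤ T := ((le_max_left _ _).trans (le_max_right _ _)).trans hT
  have hTe : Real.exp (4 / ε + 8) ≤ T := ((le_max_right _ _).trans (le_max_right _ _)).trans hT
  have hT0 : 0 < T := (Real.exp_pos _).trans_le hTe
  have hL : 4 / ε + 8 ≤ Real.log T := by rw [Real.le_log_iff_exp_le hT0]; exact hTe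
  have h4ε : 0 < 4 / ε := by positivity
  have hL8 : 8 ≤ Real.log T := by linarith
  have hL0 : 0 < Real.log T := by linarith
  have hT8 : 8 ≤ T := by
    have := Real.log_le_sub_one_of_pos hT0
    linarith
  have hn0 : (0 : ℝ) ≤ n := Nat.cast_nonneg n
  have hexp : ∀ c' : ℝ, c ≤ c' → Real.exp (-(c' * n)) ≤ Real.exp (-(c * n)) := by
    intro c' h
    apply Real.exp_le_exp.2
    have := mul_le_mul_of_nonneg_right h hn0
    linarith
  have hlog2 : Real.log 2 ≤ 1 := by
    have := Real.log_le_sub_one_of_pos (show (0 : ℝ) < 2 by norm_num)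
    linarith
  have hlog20 : 0 ≤ Real.log 2 := Real.log_nonneg (by norm_num)
  have hdbl : Real.log (2 * T) = Real.log 2 + Real.log T := Real.log_mul (by norm_num) hT0.ne'
  have hhalf : Real.log (T / 2) = Real.log T - Real.log 2 := Real.log_div hT0.ne' (by norm_num)
  have hlogim : ∀ x : ℝ, T / 2 ≤ x → x ≤ 3 * T → Real.log T - 1 ≤ Real.log x ∧ Real.log x ≤ Real.log T + 2 := by
    intro x h1 h2
    have h3 : Real.log (T / 2) ≤ Real.log x := Real.log_le_log (by positivity) h1
    have h4 : Real.log x ≤ Real.log (3 * T) := Real.log_le_log (by linarith) h2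
    rw [Real.log_mul (by norm_num) hT0.ne'] at h4
    have h5 : Real.log 3 ≤ 2 := by
      have := Real.log_le_sub_one_of_pos (show (0 : ℝ) < 3 by norm_num)
      linarith
    constructor <;> linarith
  -- small n
  rcases lt_or_ge n m with hcase | hcase
  · have hnm : (n : ℝ) ≤ m := by exact_mod_cast hcase.le
    have h10 := window F (by linarith) hC5 hT5 hunit n T T (by linarith) (by
      refine hn.trans ?_
      have : A * Real.log T ≤ 2 * A * Real.log T := by nlinarith
      exact this) hT0.le S (by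
      intro s hs
      obtain ⟨h1, -, h2, h3⟩ := hS s hs
      exact ⟨h2.le, by linarith, h1⟩)
    refine h10.trans ?_
    have h11 : Real.log (T + T) ≤ 2 * Real.log T := by
      rw [← two_mul, hdbl]; linarith
    have h12 : 1 ≤ Real.exp (c * m) * Real.exp (-(c * n)) := by
      rw [← Real.exp_add]
      apply Real.one_le_exp
      have : c * n ≤ c * m := mul_le_mul_of_nonneg_left hnm hc0.le
      linarith
    calc (T + 1) * (C5 * Real.log (T + T)) ≤ (2 * T) * (C5 * (2 * Real.log T)) := by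
          apply mul_le_mul (by linarith) (mul_le_mul_of_nonneg_left h11 hC5.le) _ (by positivity)
          exact mul_nonneg hC5.le (Real.log_nonneg (by linarith))
      _ = 4 * C5 * T * Real.log T * 1 := by ring
      _ ≤ 4 * C5 * T * Real.log T * (Real.exp (c * m) * Real.exp (-(c * n))) :=
          mul_le_mul_of_nonneg_left h12 (by positivity)
      _ = (4 * C5 * Real.exp (c * m)) * T * Real.exp (-(c * n)) * Real.log T := by ring
      _ ≤ _ := by
          have : 4 * C5 * Real.exp (c * m) ≤ 12 * Cb + C2 + C4 + 4 * C5 * Real.exp (c * m) := by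
            have : 0 ≤ 12 * Cb + C2 + C4 := by positivity
            linarith
          gcongr
  have hn1' : n1 ≤ n := hm1.trans hcase
  have hn2' : n2 ≤ n := hm2.trans hcase
  have hn3' : n3 ≤ n := hm3.trans hcase
  -- the bounds for the bad zeros
  have B1 : ∀ S : Finset ℂ, (∀ s ∈ S, bad F n s ∧ T < s.im ∧ s.im ≤ 2 * T) →
      ∑ s ∈ S, wt F n s ≤ Cb * T * Real.exp (-(c * n)) * Real.log T := by
    intro S hS
    refine (Hb T n hTb' S hS).trans ?_
    have := hexp cb hccb
    gcongr
  have B2 : ∀ S : Finset ℂ, (∀ s ∈ S, bad F n s ∧ 2 * T < s.im ∧ s.im ≤ 2 * (2 * T)) →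
      ∑ s ∈ S, wt F n s ≤ 4 * Cb * T * Real.exp (-(c * n)) * Real.log T := by
    intro S hS
    refine (Hb (2 * T) n (by linarith) S hS).trans ?_
    have h1 := hexp cb hccb
    have h2 : Real.log (2 * T) ≤ 2 * Real.log T := by linarith
    have h3 : 0 ≤ Real.log (2 * T) := Real.log_nonneg (by linarith)
    calc Cb * (2 * T) * Real.exp (-(cb * n)) * Real.log (2 * T)
        ≤ Cb * (2 * T) * Real.exp (-(c * n)) * (2 * Real.log T) := by gcongr
      _ = _ := by ring
  -- the zeros without a next zero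
  have B3 : ∀ S : Finset ℂ, (∀ s ∈ S, iteratedDeriv n F s = 0 ∧ s.re = 0 ∧ ¬ Nx F n (Om s.im) (4 * ε) s ∧
      T < s.im ∧ s.im ≤ 2 * T) → ∑ s ∈ S, wt F n s ≤ (C2 + C4) * T * Real.exp (-(c * n)) * Real.log T := by
    intro S hS
    rcases le_or_gt (n : ℝ) (Real.log T / 400) with hr | hr
    · refine (HA T n hT2' hn2' hr S ?_).trans ?_
      · intro s hs
        obtain ⟨h1, h2, h3, h4, h5⟩ := hS s hs
        refine ⟨h1, h2, fun hG => h3 ?_, h4, h5⟩
        have h6 := HG T n s (by linarith) hn1' h1 h2 hG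
        refine nx_conv hε hε1 ?_ ?_ h6
        · have e : 2 / ε = 4 / ε / 2 := by ring
          rw [e]
          linarith
        · unfold Om
          have h7 := hlogim s.im (by linarith) (by linarith)
          rw [abs_le]
          constructor <;> linarith [h7.1, h7.2]
      · have h1 := hexp c2 hcc2
        calc C2 * T * Real.exp (-(c2 * n)) * Real.log T ≤ C2 * T * Real.exp (-(c * n)) * Real.log T := by gcongr
          _ ≤ _ := by
            have : C2 ≤ C2 + C4 := by linarith
            gcongr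
    · refine (HB T n hT4' hn S ?_).trans ?_
      · intro s hs
        obtain ⟨h1, h2, h3, h4, h5⟩ := hS s hs
        refine ⟨h1, h4, h5, fun t' ht' hFar => h3 ?_⟩
        have ht := abs_le.1 ht'
        have h6 := hlogim t' (by linarith) (by linarith)
        have h7 := HF t' n s (by linarith) hn3' (by linarith) (by unfold Om; linarith)
          (by
            unfold Om
            have h8 : Real.log T ≤ 2 * Real.log t' := by linarith
            calc (n : ℝ) ≤ A * Real.log T := hn
              _ ≤ A * (2 * Real.log t') := mul_le_mul_of_nonneg_left h8 (by linarith)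
              _ = _ := by ring) h1 h2 hFar
        refine nx_conv hε hε1 ?_ ?_ h7
        · unfold Om
          have e : 2 / ε = 4 / ε / 2 := by ring
          rw [e]
          linarith [h6.1]
        · unfold Om
          have h8 := hlogim s.im (by linarith) (by linarith)
          have h9 : |Real.log s.im - Real.log t'| ≤ 2 := by
            have hs0 : 0 < s.im := by linarith
            have ht0 : 0 < t' := by linarith
            have g1 : Real.log s.im ≤ Real.log (2 * t') := Real.log_le_log hs0 (by linarith)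
            have g2 : Real.log t' ≤ Real.log (2 * s.im) := Real.log_le_log ht0 (by linarith)
            rw [Real.log_mul (by norm_num) ht0.ne'] at g1
            rw [Real.log_mul (by norm_num) hs0.ne'] at g2
            rw [abs_le]
            constructor <;> linarith
          have h10 := abs_le.1 h9
          rw [abs_le]
          constructor <;> linarith
      · have h1 := hexp c4 hcc4
        calc C4 * T * Real.exp (-(c4 * n)) * Real.log T ≤ C4 * T * Real.exp (-(c * n)) * Real.log T := by gcongr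
          _ ≤ _ := by
            have : C4 ≤ C2 + C4 := by linarith
            gcongr
  -- the decomposition
  have hsplit : ∑ s ∈ S, wt F n s = ∑ s ∈ S.filter (fun s => bad F n s), wt F n s +
      (∑ s ∈ (S.filter (fun s => ¬ bad F n s)).filter (fun s => Nx F n (Om s.im) (4 * ε) s), wt F n s +
        ∑ s ∈ (S.filter (fun s => ¬ bad F n s)).filter (fun s => ¬ Nx F n (Om s.im) (4 * ε) s), wt F n s) := by
    rw [Finset.sum_filter_add_sum_filter_not, Finset.sum_filter_add_sum_filter_not]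
  have C1 := B1 (S.filter (fun s => bad F n s)) (by
    intro s hs
    rw [Finset.mem_filter] at hs
    obtain ⟨-, -, h2, h3⟩ := hS s hs.1
    exact ⟨hs.2, h2, h3⟩)
  have C3 := B3 ((S.filter (fun s => ¬ bad F n s)).filter (fun s => ¬ Nx F n (Om s.im) (4 * ε) s)) (by
    intro s hs
    rw [Finset.mem_filter, Finset.mem_filter] at hs
    obtain ⟨h1, -, h2, h3⟩ := hS s hs.1.1
    refine ⟨h1, ?_, hs.2, h2, h3⟩
    by_contra hc
    exact hs.1.2 ⟨h1, Or.inl hc⟩)
  have C2' := cnt_assoc hF _ hD.ne B1 B2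
    ((S.filter (fun s => ¬ bad F n s)).filter (fun s => Nx F n (Om s.im) (4 * ε) s)) (by
    intro s hs
    rw [Finset.mem_filter, Finset.mem_filter] at hs
    obtain ⟨h1, hr, h2, h3⟩ := hS s hs.1.1
    obtain ⟨z, g, g1, g2, g3, g4, g5, g6⟩ := assoc h1 hr hs.1.2 hs.2
    refine ⟨h1, hs.1.2, h2, h3, z, g, g1, g2, g3, ?_, g6⟩
    have h7 := hlogim s.im (by linarith) (by linarith)
    have h8 : 3 ≤ Om s.im := by unfold Om; linarith [h7.1]
    have h9 := (abs_le.1 g5).2
    have hpi := Real.pi_pos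
    have hpi4 := Real.pi_lt_four
    have h10 : g * Om s.im / Real.pi ≤ 2 := by linarith
    rw [div_le_iff₀ hpi] at h10
    have h11 : g * 3 ≤ g * Om s.im := mul_le_mul_of_nonneg_left h8 g4.le
    linarith)
  rw [hsplit]
  have hfin : Cb * T * Real.exp (-(c * n)) * Real.log T +
      (2 * (Cb * T * Real.exp (-(c * n)) * Real.log T + 4 * Cb * T * Real.exp (-(c * n)) * Real.log T) +
        (C2 + C4) * T * Real.exp (-(c * n)) * Real.log T) =
      (11 * Cb + C2 + C4) * T * Real.exp (-(c * n)) * Real.log T := by ring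
  calc _ ≤ _ := add_le_add C1 (add_le_add C2' C3)
    _ = _ := hfin
    _ ≤ _ := by
      have : 11 * Cb + C2 + C4 ≤ 12 * Cb + C2 + C4 + 4 * C5 * Real.exp (c * m) := by
        have : 0 ≤ Cb + 4 * C5 * Real.exp (c * m) := by positivity
        linarith
      gcongr

end Pool.Agent.U4.DG
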