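import Pool.Agent.U4.DG.Dyi
import Pool.Agent.R838.CR.Hdyp
import Pool.Agent.Y671.GL.Cnt

/-!
# Irregular zeros of the derivatives of completed L-functions
-/

set_option autoImplicit false

namespace Pool.Agent.U4.DG

open Complex Filter Topology MeasureTheory Set Polynomial
open scoped ComplexConjugate
open Pool.Agent.H24R2.JP (Om)
open Pool.Agent.H24R2.DZ (ra NN)
open Pool.Agent.Y671.GL
open Pool.Agent.Y693.GL (GY good_scaleY)
open Pool.Agent.Y671.LD
open Pool.Agent.W169.HF (heat Slow)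
open Pool.Agent.R838.LD (HD)

/-- the normalised function of a completed L-function satisfies the hypotheses of `dyi` -/
theorem dd_of {κ : ℝ} {H X Z : ℂ → ℂ} (hκ : 1 / 2 ≤ κ) (hG : GY κ H X Z) (hA : AppX X) (hL : LowX X)
    (hst0 : ∀ s : ℂ, X s = 0 → |s.re| ≤ 1 / 2) (hH : HugeX X) :
    ∃ K : ℝ, DD κ K (fun z => X (z / (2 * κ : ℝ))) ∧ NearI (fun z => X (z / (2 * κ : ℝ))) ∧
      SDyF (fun z => X (z / (2 * κ : ℝ))) ∧ Unt (fun z => X (z / (2 * κ : ℝ))) := by
  have hκ0 : 0 < κ := by linarith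
  have hb : 0 < 2 * κ := by positivity
  have hbc : ((2 * κ : ℝ) : ℂ) ≠ 0 := by exact_mod_cast hb.ne'
  have hC := hG.cg.cf
  have hXd := hC.diff
  obtain ⟨F, hF⟩ : ∃ F : ℂ → ℂ, F = fun z => X (z / (2 * κ : ℝ)) := ⟨_, rfl⟩
  have hFd : Differentiable ℂ F := by rw [hF]; exact hXd.comp (by fun_prop)
  obtain ⟨h1, h2, h3, h4, h5, h6, h7⟩ := Pool.Agent.Y412.GL.HSZ.hsz κ H X Z hκ hG.cg F _
    (by rw [hF]; push_cast; rfl) rfl
  obtain ⟨K0, hK0, N0, hlow⟩ := hL
  have happ : App κ F := by rw [hF]; exact app_scale hb (by ring) hA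
  obtain ⟨K1, T1, hT1, h6'⟩ := h6 (10 * κ)
  have hne := iter_ne hFd (10 * κ) K1 T1 (fun t ht => h6' t ((10 * κ : ℝ) : ℂ) ht
    (by rw [Complex.norm_real, Real.norm_eq_abs, abs_of_pos (by positivity)])
    (by rw [Complex.ofReal_re]))
  have hst : Strip F κ := strip_of_app' hFd happ hne
  have hDD : DD κ (max 25 K0) F := by
    refine ⟨hκ, le_max_left _ _, hFd, ?_, happ, ⟨_, h1, h7⟩, ?_, ?_, by rw [hF]; exact good_scaleY hκ hG.good,
      by rw [hF]; exact top_scale hXd hκ hG.top⟩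
    · intro z
      rw [hF]
      exact symm_scale hC.symm z
    · intro n hn
      have h8 := hst n _ hn
      have h9 : ((10 * κ : ℂ)).re = 10 * κ := by
        simp
      rw [h9, abs_of_pos (by positivity)] at h8
      linarith
    · refine ⟨N0, ?_⟩
      intro n hn s hs hbad
      rw [hF, bad_scale hb hXd] at hbad
      refine hlow n hn _ ?_ hbad
      rw [Complex.div_ofReal_im, abs_div, abs_of_pos hb]
      have h8 : |s.im| / (2 * κ) ≤ |s.im| := div_le_self (abs_nonneg _) (by linarith)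
      have h9 : Real.exp (n / max 25 K0) ≤ Real.exp (n / K0) := by
        apply Real.exp_le_exp.2
        exact div_le_div_of_nonneg_left (by positivity) hK0 (le_max_right _ _)
      linarith
  have hNear : NearI F := by
    obtain ⟨⟨F', hh, hHD⟩, -, -⟩ := Pool.Agent.R838.CR.hd_of κ H X Z hκ hG hst0 hH
    obtain ⟨K, hK, hslow⟩ := hG.cg.slow
    have hneX : ∃ z, X z ≠ 0 := by
      have h8 := (h6' T1 ((10 * κ : ℝ) : ℂ) le_rfl
        (by rw [Complex.norm_real, Real.norm_eq_abs, abs_of_pos (by positivity)])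
        (by rw [Complex.ofReal_re])).1
      rw [hF] at h8
      exact ⟨_, h8⟩
    obtain ⟨g0, -⟩ := Pool.Agent.Y275.GL.hht X (slow_of hXd hK hslow) hC.symm hneX hst0
    have hFF : F' = F := by
      rw [← hHD.heat0]
      funext z
      show heat (0 / (2 * κ) ^ 2) X (z / ((2 * κ : ℝ) : ℂ)) = F z
      rw [zero_div, g0, hF]
    rw [hFF] at hHD
    exact fun R ε hR hε => Pool.Agent.R838.LD.Y494.near κ F _ hh hHD R ε hR hε
  have hsb2 := Pool.Agent.W347.SD.sb2
  have hsb3 := Pool.Agent.W368.SD.sb3 Pool.Agent.W347.SD.sb2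
  have hscount := Pool.Agent.W32.SD.scount Pool.Agent.W347.SD.sb2
  have hst' : Strip F κ := strip_of_app hDD.diff hDD.app _ hDD.ne
  have hcir : Cir F := cir_of_app hκ0 hDD.diff hDD.symm hDD.app _ hDD.ne
  have hunit : Unt F := unit_of hκ0 hDD.diff hDD.size hst' hsb2
  have hPA : PtA F := pta hDD.diff hsb3
  have hPB : PtB F := ptb hDD.diff hPA Pool.Agent.W571.SD.sb1a Pool.Agent.W571.SD.sb1b
  have hmid : SMd F := mid' hDD hscount hunit hst' hcir hPA hPB
  have hdy : SDyF F := sdy hDD hst' hmid hcir hunit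
  rw [← hF]
  exact ⟨_, hDD, hNear, hdy, hunit⟩

/-- The zero `s` of the `n`-th derivative of `Λ` is simple and on the line `Re = a`, and the next zero is again
simple and on the line, at the distance `(1 + O(ε)) π / (κ log (Im s))`. -/
def RegL (Λ : ℂ → ℂ) (κ ε a : ℝ) (n : ℕ) (s : ℂ) : Prop :=
  s.re = a ∧ iteratedDeriv (n + 1) Λ s ≠ 0 ∧ ∃ g : ℝ, 0 < g ∧
    |g * (κ * Real.log s.im) / Real.pi - 1| ≤ ε ∧
    iteratedDeriv n Λ (s + g * I) = 0 ∧ iteratedDeriv (n + 1) Λ (s + g * I) ≠ 0 ∧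
    ∀ z : ℂ, iteratedDeriv n Λ z = 0 → s.im ≤ z.im → z.im ≤ s.im + g → z = s ∨ z = s + g * I

theorem reg_scale {X : ℂ → ℂ} {κ b ε : ℝ} {n : ℕ} {s : ℂ} (hκ : 1 / 2 ≤ κ) (hb2 : b = 2 * κ)
    (hX : Differentiable ℂ X) (hε : 0 < ε) (hε1 : ε ≤ 1) (hs1 : 1 < s.im)
    (hs2 : 2 * Real.log b / ε ≤ Real.log s.im)
    (h : Reg (fun z => X (z / (b : ℂ))) n (Om (b * s.im)) ε ((b : ℂ) * s)) : RegL X κ (2 * ε) 0 n s := by
  have hκ0 : 0 < κ := by linarith
  have hb : 0 < b := by rw [hb2]; positivity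
  have hb1 : 1 ≤ b := by rw [hb2]; linarith
  have hbc : (b : ℂ) ≠ 0 := by exact_mod_cast hb.ne'
  have hit : ∀ (m : ℕ) (w : ℂ), iteratedDeriv m (fun z => X (z / (b : ℂ))) ((b : ℂ) * w) =
      ((1 / b : ℝ) : ℂ) ^ m * iteratedDeriv m X w := by
    intro m w
    have h2 : (fun z : ℂ => X (z / (b : ℂ))) = fun z => X (((1 / b : ℝ) : ℂ) * z) := by
      funext z
      congr 1
      push_cast
      ring
    rw [h2, iter_scale hX]
    congr 2
    push_cast
    field_simp
  have hpow : ∀ m : ℕ, ((1 / b : ℝ) : ℂ) ^ m ≠ 0 := by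
    intro m
    apply pow_ne_zero
    push_cast
    simp [hbc]
  have him : ((b : ℂ) * s).im = b * s.im := Complex.im_ofReal_mul b s
  have hre : ((b : ℂ) * s).re = b * s.re := Complex.re_ofReal_mul b s
  obtain ⟨h1, h2, g', h3, h4, h5, h6, h7⟩ := h
  rw [hre] at h1
  rw [hit] at h2
  obtain ⟨g, hg⟩ : ∃ g : ℝ, g = g' / b := ⟨_, rfl⟩
  have hg' : g' = b * g := by rw [hg]; field_simp
  have hg0 : 0 < g := by rw [hg]; positivity
  have hsg : (b : ℂ) * s + (g' : ℂ) * I = (b : ℂ) * (s + g * I) := by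
    rw [hg']
    push_cast
    ring
  rw [hsg, hit] at h5 h6
  have hl : 0 < Real.log s.im := Real.log_pos hs1
  have hlb : 0 ≤ Real.log b := Real.log_nonneg hb1
  have hpi := Real.pi_pos
  have hOm : g' * Om (b * s.im) / Real.pi = g * κ / Real.pi * Real.log b + g * (κ * Real.log s.im) / Real.pi := by
    unfold Om
    rw [Real.log_mul hb.ne' (by linarith), hg', hb2]
    ring
  rw [hOm] at h4
  have h4' := (abs_le.1 h4).2
  have hgκ : 0 ≤ g * κ / Real.pi := by positivity
  have h8 : g * κ / Real.pi * Real.log s.im ≤ 2 := by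
    have h9 : 0 ≤ g * κ / Real.pi * Real.log b := by positivity
    have h10 : g * κ / Real.pi * Real.log s.im = g * (κ * Real.log s.im) / Real.pi := by ring
    linarith
  have h9 : g * κ / Real.pi * Real.log b ≤ ε := by
    rw [div_le_iff₀ hε] at hs2
    have h10 : g * κ / Real.pi * (2 * Real.log b) ≤ g * κ / Real.pi * (Real.log s.im * ε) :=
      mul_le_mul_of_nonneg_left hs2 hgκ
    have h11 : g * κ / Real.pi * Real.log s.im * ε ≤ 2 * ε := mul_le_mul_of_nonneg_right h8 hε.le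
    linarith
  refine ⟨?_, ?_, g, hg0, ?_, ?_, ?_, ?_⟩
  · rcases mul_eq_zero.1 h1 with h | h
    · exact absurd h hb.ne'
    · exact h
  · intro h
    rw [h, mul_zero] at h2
    exact h2 rfl
  · have e1 : g * (κ * Real.log s.im) / Real.pi - 1 =
        (g * κ / Real.pi * Real.log b + g * (κ * Real.log s.im) / Real.pi - 1) - g * κ / Real.pi * Real.log b := by
      ring
    rw [e1]
    refine (abs_sub _ _).trans ?_
    have h10 : |g * κ / Real.pi * Real.log b| ≤ ε := by
      rw [abs_of_nonneg (by positivity)]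
      exact h9
    linarith
  · exact (mul_eq_zero.1 h5).resolve_left (hpow n)
  · intro h
    rw [h, mul_zero] at h6
    exact h6 rfl
  · intro z hz hz1 hz2
    have h10 := h7 ((b : ℂ) * z) (by rw [hit, hz, mul_zero])
      (by
        rw [him, Complex.im_ofReal_mul]
        exact mul_le_mul_of_nonneg_left hz1 hb.le)
      (by
        rw [him, Complex.im_ofReal_mul, hg']
        have := mul_le_mul_of_nonneg_left hz2 hb.le
        linarith)
    rcases h10 with h10 | h10
    · left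
      exact mul_left_cancel₀ hbc h10
    · right
      rw [hsg] at h10
      exact mul_left_cancel₀ hbc h10

/-- low zeros, finitely many derivatives -/
theorem lowc {κ : ℝ} {H X Z : ℂ → ℂ} (hκ : 1 / 2 ≤ κ) (hC : CG κ H X Z) (hA : AppX X) (N : ℕ) (R : ℝ) :
    ∃ D : ℝ, 0 ≤ D ∧ ∀ n : ℕ, n ≤ N → ∀ S : Finset ℂ,
    (∀ s ∈ S, iteratedDeriv n X s = 0 ∧ 0 ≤ s.im ∧ s.im ≤ R) →
    ∑ s ∈ S, (analyticOrderNatAt (iteratedDeriv n X) s : ℝ) ≤ D := by
  obtain ⟨hne, hst⟩ := stripD hκ hC hA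
  have hK : IsCompact (Icc (-(1 / 2 : ℝ)) (1 / 2) ×ℂ Icc (0 : ℝ) R) := isCompact_Icc.reProdIm isCompact_Icc
  have hfin : ∀ n : ℕ, {s | s ∈ (Icc (-(1 / 2 : ℝ)) (1 / 2) ×ℂ Icc (0 : ℝ) R) ∧ iteratedDeriv n X s = 0}.Finite := by
    intro n
    have hne1 : iteratedDeriv n X 1 ≠ 0 := by
      intro h0
      have := hst n 1 h0
      norm_num at this
    exact fin_zeros (iter_diff hC.cf.diff n) hne1 hK
  refine ⟨∑ n ∈ Finset.range (N + 1), ∑ s ∈ (hfin n).toFinset, (analyticOrderNatAt (iteratedDeriv n X) s : ℝ),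
    Finset.sum_nonneg fun _ _ => Finset.sum_nonneg fun _ _ => Nat.cast_nonneg _, ?_⟩
  intro n hn S hS
  have h1 : ∑ s ∈ S, (analyticOrderNatAt (iteratedDeriv n X) s : ℝ) ≤
      ∑ s ∈ (hfin n).toFinset, (analyticOrderNatAt (iteratedDeriv n X) s : ℝ) := by
    apply Finset.sum_le_sum_of_subset_of_nonneg
    · intro s hs
      obtain ⟨hz, h0, h1⟩ := hS s hs
      rw [Set.Finite.mem_toFinset]
      refine ⟨?_, hz⟩
      have := abs_le.1 (hst n s hz)
      rw [mem_reProdIm]
      exact ⟨⟨this.1, this.2⟩, ⟨h0, h1⟩⟩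
    · intro _ _ _
      exact Nat.cast_nonneg _
  refine h1.trans ?_
  exact Finset.single_le_sum (f := fun n => ∑ s ∈ (hfin n).toFinset,
    (analyticOrderNatAt (iteratedDeriv n X) s : ℝ)) (fun _ _ => Finset.sum_nonneg fun _ _ => Nat.cast_nonneg _)
    (Finset.mem_range.2 (by omega))

/-- **Irregular zeros of the derivatives.** -/
theorem irx {κ : ℝ} {H X Z : ℂ → ℂ} (hκ : 1 / 2 ≤ κ) (hG : GY κ H X Z) (hA : AppX X) (hL : LowX X)
    (hst0 : ∀ s : ℂ, X s = 0 → |s.re| ≤ 1 / 2) (hH : HugeX X) {ε A : ℝ} (hε : 0 < ε) :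
    ∃ c C : ℝ, 0 < c ∧ 0 < C ∧ ∀ (n : ℕ) (T : ℝ), 2 ≤ T → (n : ℝ) ≤ A * Real.log T →
      ∀ S : Finset ℂ, (∀ s ∈ S, iteratedDeriv n X s = 0 ∧ ¬ RegL X κ ε 0 n s ∧ T < s.im ∧ s.im ≤ 2 * T) →
      ∑ s ∈ S, (analyticOrderNatAt (iteratedDeriv n X) s : ℝ) ≤
        C * T * Real.log T * Real.exp (-(c * n)) := by
  obtain ⟨K, hDD, hNear, hdy, hunit⟩ := dd_of hκ hG hA hL hst0 hH
  have hκ0 : 0 < κ := by linarith
  obtain ⟨b, hb2⟩ : ∃ b : ℝ, b = 2 * κ := ⟨_, rfl⟩
  rw [← hb2] at hDD hNear hdy hunit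
  have hb : 0 < b := by rw [hb2]; positivity
  have hb1 : 1 ≤ b := by rw [hb2]; linarith
  have hbc : (b : ℂ) ≠ 0 := by exact_mod_cast hb.ne'
  have hlog0 : 0 ≤ Real.log b := Real.log_nonneg hb1
  have hXd := hG.cg.cf.diff
  obtain ⟨e, he⟩ : ∃ e : ℝ, e = min (ε / 8) (1 / 4) := ⟨_, rfl⟩
  have he0 : 0 < e := by rw [he]; exact lt_min (by positivity) (by norm_num)
  have he1 : e ≤ 1 / 4 := by rw [he]; exact min_le_right _ _
  have heε : e ≤ ε / 8 := by rw [he]; exact min_le_left _ _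
  obtain ⟨A1, hA1⟩ : ∃ A1 : ℝ, A1 = max A 1 := ⟨_, rfl⟩
  have hA11 : 1 ≤ A1 := by rw [hA1]; exact le_max_right _ _
  have hAA1 : A ≤ A1 := by rw [hA1]; exact le_max_left _ _
  obtain ⟨c, C, T0, hc, hCp, hT0, hfin⟩ := dyi hDD hNear hdy (Pool.Agent.W32.SD.scount Pool.Agent.W347.SD.sb2)
    hunit he0 he1 hA11
  obtain ⟨T1, hT1⟩ : ∃ T1 : ℝ, T1 = max T0 (Real.exp (2 * Real.log b / (4 * e))) := ⟨_, rfl⟩
  obtain ⟨D, hD0, hD⟩ := lowc hκ hG.cg hA ⌊A1 * Real.log T1⌋₊ (2 * T1)
  have hT11 : 1 ≤ T1 := by rw [hT1]; exact le_trans (by linarith) (le_max_left _ _)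
  refine ⟨c, C * b * (1 + 2 * Real.log b) + D * Real.exp (c * (A1 * Real.log T1)), hc, by positivity, ?_⟩
  intro n T hT hnA S hS
  have hTp : 0 < T := by linarith
  have hlT : 1 / 2 ≤ Real.log T := by
    have h3 : Real.log 2 ≤ Real.log T := Real.log_le_log (by norm_num) hT
    have := Real.log_two_gt_d9
    linarith
  have hn0 : (0 : ℝ) ≤ n := Nat.cast_nonneg n
  have hnA1 : (n : ℝ) ≤ A1 * Real.log T :=
    hnA.trans (mul_le_mul_of_nonneg_right hAA1 (by linarith))
  rcases le_or_gt T1 T with hTT | hTT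
  · classical
    have hTa : T0 ≤ T := by
      refine le_trans ?_ hTT
      rw [hT1]; exact le_max_left _ _
    have hTb : Real.exp (2 * Real.log b / (4 * e)) ≤ T := by
      refine le_trans ?_ hTT
      rw [hT1]; exact le_max_right _ _
    have hlTb : 2 * Real.log b / (4 * e) ≤ Real.log T := by
      rw [Real.le_log_iff_exp_le hTp]; exact hTb
    have h10 : Real.log (b * T) ≤ (1 + 2 * Real.log b) * Real.log T := by
      rw [Real.log_mul hb.ne' hTp.ne']
      nlinarith
    have h11 : Real.log T ≤ Real.log (b * T) := by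
      apply Real.log_le_log hTp
      nlinarith
    have h8 := hfin (b * T) n (by nlinarith)
      (hnA1.trans (mul_le_mul_of_nonneg_left h11 (by linarith)))
      (S.image (fun s => (b : ℂ) * s)) (by
        intro s hs
        rw [Finset.mem_image] at hs
        obtain ⟨w, hw, rfl⟩ := hs
        obtain ⟨k1, k1', k2, k3⟩ := hS w hw
        have hit : iteratedDeriv n (fun z => X (z / (b : ℂ))) ((b : ℂ) * w) =
            ((1 / b : ℝ) : ℂ) ^ n * iteratedDeriv n X w := by
          have h2 : (fun z : ℂ => X (z / (b : ℂ))) = fun z => X (((1 / b : ℝ) : ℂ) * z) := by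
            funext z
            congr 1
            push_cast
            ring
          rw [h2, iter_scale hXd]
          congr 2
          push_cast
          field_simp
        refine ⟨by rw [hit, k1, mul_zero], ?_, ?_, ?_⟩
        · intro hreg
          apply k1'
          rw [Complex.im_ofReal_mul] at hreg
          obtain ⟨m1, m2, g, m3, m4, m5, m6, m7⟩ :=
            reg_scale hκ hb2 hXd (by positivity) (by linarith) (by linarith)
              (hlTb.trans (Real.log_le_log hTp k2.le)) hreg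
          exact ⟨m1, m2, g, m3, m4.trans (by linarith), m5, m6, m7⟩
        · rw [Complex.im_ofReal_mul]
          gcongr
        · rw [Complex.im_ofReal_mul, ← mul_assoc, mul_comm 2 b, mul_assoc]
          gcongr)
    rw [Finset.sum_image (by
      intro x _ y _ hxy
      exact mul_left_cancel₀ hbc hxy)] at h8
    have h9 : ∀ s ∈ S, (analyticOrderNatAt (iteratedDeriv n X) s : ℝ) =
        wt (fun z => X (z / (b : ℂ))) n ((b : ℂ) * s) := by
      intro s _
      have e1 : iteratedDeriv n (fun z => X (z / (b : ℂ))) =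
          fun z => ((1 / b : ℝ) : ℂ) ^ n * iteratedDeriv n X (z / (b : ℂ)) := by
        funext z
        have e2 : (fun z => X (z / (b : ℂ))) = fun z => X (((1 / b : ℝ) : ℂ) * z) := by
          funext z
          congr 1
          push_cast
          ring
        rw [e2, iter_scale hXd]
        congr 2
        push_cast
        ring
      unfold wt
      rw [e1, order_const_mul, order_scale hb (iter_diff hXd n)]
      · apply pow_ne_zero
        norm_cast
        positivity
      · have : Differentiable ℂ (fun z => iteratedDeriv n X (z / (b : ℂ))) :=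
          (iter_diff hXd n).comp (by fun_prop)
        exact this.analyticAt _
    rw [Finset.sum_congr rfl h9]
    refine h8.trans ?_
    have h16 : 0 ≤ D * Real.exp (c * (A1 * Real.log T1)) * T * Real.log T * Real.exp (-(c * n)) := by positivity
    calc C * (b * T) * Real.exp (-(c * n)) * Real.log (b * T)
        ≤ C * (b * T) * Real.exp (-(c * n)) * ((1 + 2 * Real.log b) * Real.log T) := by gcongr
      _ = C * b * (1 + 2 * Real.log b) * T * Real.log T * Real.exp (-(c * n)) := by ring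
      _ ≤ _ := by linarith
  · have h16 : 0 ≤ C * b * (1 + 2 * Real.log b) * T * Real.log T * Real.exp (-(c * n)) := by
      positivity
    have hlTT : Real.log T ≤ Real.log T1 := Real.log_le_log hTp hTT.le
    have hnT1 : (n : ℝ) ≤ A1 * Real.log T1 := hnA1.trans (mul_le_mul_of_nonneg_left hlTT (by linarith))
    have h17 := hD n (Nat.le_floor hnT1) S (by
      intro s hs
      obtain ⟨k1, -, k2, k3⟩ := hS s hs
      exact ⟨k1, by linarith, by linarith⟩)
    have h18 : (1 : ℝ) ≤ T * Real.log T := by nlinarith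
    have h19 : 1 ≤ Real.exp (c * (A1 * Real.log T1)) * Real.exp (-(c * n)) := by
      rw [← Real.exp_add]
      apply Real.one_le_exp
      have := mul_le_mul_of_nonneg_left hnT1 hc.le
      linarith
    have h20 : D ≤ D * ((Real.exp (c * (A1 * Real.log T1)) * Real.exp (-(c * n))) * (T * Real.log T)) := by
      apply le_mul_of_one_le_right hD0
      nlinarith
    have e : D * ((Real.exp (c * (A1 * Real.log T1)) * Real.exp (-(c * n))) * (T * Real.log T)) =
        D * Real.exp (c * (A1 * Real.log T1)) * T * Real.log T * Real.exp (-(c * n)) := by ring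
    calc _ ≤ D := h17
      _ ≤ _ := h20
      _ ≤ _ := by rw [e]; linarith

end Pool.Agent.U4.DG
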