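import Pool.Agent.U4.DG.MidA

/-!
# Irregular zeros: reduction to bad zeros and to zeros without a next zero at the regular distance
-/

set_option autoImplicit false

namespace Pool.Agent.U4.DG

open Complex Filter Topology MeasureTheory Set
open Pool.Agent.H24R2.DZ (ra NN SCount)
open Pool.Agent.Y671.LD

variable {F : ℂ → ℂ}

/-- The zero `s` of the `n`-th derivative is simple and on the axis, and the next zero is again a simple zero on
the axis, at the distance `(1 + O(ε)) π / ω`. -/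
def Reg (F : ℂ → ℂ) (n : ℕ) (ω ε : ℝ) (s : ℂ) : Prop :=
  s.re = 0 ∧ iteratedDeriv (n + 1) F s ≠ 0 ∧ ∃ g : ℝ, 0 < g ∧ |g * ω / Real.pi - 1| ≤ ε ∧
    iteratedDeriv n F (s + g * I) = 0 ∧ iteratedDeriv (n + 1) F (s + g * I) ≠ 0 ∧
    ∀ z : ℂ, iteratedDeriv n F z = 0 → s.im ≤ z.im → z.im ≤ s.im + g → z = s ∨ z = s + g * I

/-- an irregular zero which is not bad and has a next zero on the axis at the right distance is close to a bad zero -/
theorem assoc {n : ℕ} {ω ε : ℝ} {s : ℂ} (hs : iteratedDeriv n F s = 0) (hr : ¬ Reg F n ω ε s)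
    (hb : ¬ bad F n s) (hx : Nx F n ω ε s) : ∃ (z : ℂ) (g : ℝ), bad F n z ∧ s.im ≤ z.im ∧ z.im ≤ s.im + g ∧
      0 < g ∧ |g * ω / Real.pi - 1| ≤ ε ∧ ∀ g' : ℝ, 0 < g' → g' < g → iteratedDeriv n F (s + g' * I) ≠ 0 := by
  obtain ⟨g, hg, h1, h2, h3⟩ := hx
  have hb' : s.re = 0 ∧ iteratedDeriv (n + 1) F s ≠ 0 := by
    constructor
    · by_contra hc
      exact hb ⟨hs, Or.inl hc⟩
    · intro hc
      exact hb ⟨hs, Or.inr hc⟩
  by_contra hcon
  push Not at hcon
  have key : ∀ z : ℂ, bad F n z → s.im ≤ z.im → z.im ≤ s.im + g → False := by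
    intro z hz h4 h5
    obtain ⟨g', h6, h7, h8⟩ := hcon z g hz h4 h5 hg h1
    exact h3 g' h6 h7 h8
  apply hr
  refine ⟨hb'.1, hb'.2, g, hg, h1, h2, ?_, ?_⟩
  · intro h4
    refine key (s + g * I) ⟨h2, Or.inr h4⟩ ?_ ?_
    · simp [hg.le]
    · simp
  · intro z hz h4 h5
    by_contra hne
    push Not at hne
    have hzre : z.re = 0 := by
      by_contra hc
      exact key z ⟨hz, Or.inl hc⟩ h4 h5
    have hz' : ∀ h : ℝ, z.im = s.im + h → z = s + h * I := by
      intro h hh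
      apply Complex.ext
      · rw [hzre]; simp [hb'.1]
      · rw [hh]; simp
    rcases eq_or_lt_of_le h4 with h6 | h6
    · apply hne.1
      have := hz' 0 (by linarith)
      simpa using this
    · rcases eq_or_lt_of_le h5 with h7 | h7
      · exact hne.2 (hz' g h7)
      · have e := hz' (z.im - s.im) (by ring)
        exact h3 (z.im - s.im) (by linarith) (by linarith) (by rw [← e]; exact hz)

/-- a simple zero has weight one -/
theorem wt_one (hF : Differentiable ℂ F) {n : ℕ} {s : ℂ} (h0 : iteratedDeriv n F s = 0)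
    (h1 : iteratedDeriv (n + 1) F s ≠ 0) : wt F n s = 1 := by
  have hd : Differentiable ℂ (iteratedDeriv n F) := iter_diff hF n
  have hA : AnalyticAt ℂ (iteratedDeriv n F) s := hd.analyticAt s
  have h2 : deriv (iteratedDeriv n F) s ≠ 0 := by
    rw [← iteratedDeriv_succ]; exact h1
  have h3 : analyticOrderAt (deriv (iteratedDeriv n F)) s = 0 :=
    (hA.deriv.analyticOrderAt_eq_zero).2 h2
  have h4 := hA.analyticOrderAt_deriv_add_one
  rw [h3, h0, zero_add] at h4
  have h5 : (fun x => iteratedDeriv n F x - 0) = iteratedDeriv n F := by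
    funext x; rw [sub_zero]
  rw [h5] at h4
  unfold wt analyticOrderNatAt
  rw [← h4]
  simp

/-- the number of irregular zeros which are close to bad zeros -/
theorem cnt_assoc (hF : Differentiable ℂ F) (p : ℂ) (hne : ∀ n, iteratedDeriv n F p ≠ 0) {n : ℕ} {T b1 b2 : ℝ}
    (hb1 : ∀ S : Finset ℂ, (∀ s ∈ S, bad F n s ∧ T < s.im ∧ s.im ≤ 2 * T) → ∑ s ∈ S, wt F n s ≤ b1)
    (hb2 : ∀ S : Finset ℂ, (∀ s ∈ S, bad F n s ∧ 2 * T < s.im ∧ s.im ≤ 2 * (2 * T)) → ∑ s ∈ S, wt F n s ≤ b2)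
    (S : Finset ℂ) (hS : ∀ s ∈ S, iteratedDeriv n F s = 0 ∧ ¬ bad F n s ∧ T < s.im ∧ s.im ≤ 2 * T ∧
      ∃ (z : ℂ) (g : ℝ), bad F n z ∧ s.im ≤ z.im ∧ z.im ≤ s.im + g ∧ g ≤ T ∧
        ∀ g' : ℝ, 0 < g' → g' < g → iteratedDeriv n F (s + g' * I) ≠ 0) :
    ∑ s ∈ S, wt F n s ≤ 2 * (b1 + b2) := by
  classical
  have hex : ∀ s : ℂ, ∃ z : ℂ, s ∈ S → (bad F n z ∧ s.im ≤ z.im ∧ ∃ g : ℝ, z.im ≤ s.im + g ∧ g ≤ T ∧
        ∀ g' : ℝ, 0 < g' → g' < g → iteratedDeriv n F (s + g' * I) ≠ 0) := by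
    intro s
    by_cases hs : s ∈ S
    · obtain ⟨-, -, -, -, z, g, h1, h2, h3, h4, h5⟩ := hS s hs
      exact ⟨z, fun _ => ⟨h1, h2, g, h3, h4, h5⟩⟩
    · exact ⟨0, fun h => absurd h hs⟩
  choose Z hZ using hex
  obtain ⟨W, hW⟩ : ∃ W, W = S.image Z := ⟨_, rfl⟩
  have hre : ∀ s ∈ S, s.re = 0 := by
    intro s hs
    obtain ⟨h1, h2, -⟩ := hS s hs
    by_contra hc
    exact h2 ⟨h1, Or.inl hc⟩
  have hw1 : ∀ s ∈ S, wt F n s = 1 := by
    intro s hs
    obtain ⟨h1, h2, -⟩ := hS s hs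
    refine wt_one hF h1 fun hc => h2 ⟨h1, Or.inr hc⟩
  have hWb : ∀ z ∈ W, bad F n z ∧ T < z.im ∧ z.im ≤ 2 * (2 * T) := by
    intro z hz
    rw [hW, Finset.mem_image] at hz
    obtain ⟨s, hs, rfl⟩ := hz
    obtain ⟨-, -, h1, h2, -⟩ := hS s hs
    obtain ⟨h3, h4, g, h5, h6, -⟩ := hZ s hs
    exact ⟨h3, by linarith, by linarith⟩
  have hcard : (W.card : ℝ) ≤ b1 + b2 := by
    have h1 : (W.card : ℝ) ≤ ∑ z ∈ W, wt F n z := by
      rw [Finset.card_eq_sum_ones]
      push_cast
      exact Finset.sum_le_sum fun z hz => one_le_wt hF p hne n z (hWb z hz).1.1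
    rw [← Finset.sum_filter_add_sum_filter_not W (fun z => z.im ≤ 2 * T)] at h1
    refine h1.trans (add_le_add (hb1 _ ?_) (hb2 _ ?_))
    · intro z hz
      rw [Finset.mem_filter] at hz
      exact ⟨(hWb z hz.1).1, (hWb z hz.1).2.1, hz.2⟩
    · intro z hz
      rw [Finset.mem_filter, not_le] at hz
      exact ⟨(hWb z hz.1).1, hz.2, (hWb z hz.1).2.2⟩
  have hmaps : ∀ s ∈ S, Z s ∈ W := fun s hs => by rw [hW]; exact Finset.mem_image_of_mem Z hs
  rw [← Finset.sum_fiberwise_of_maps_to hmaps]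
  have hfib : ∀ z ∈ W, ∑ s ∈ S.filter (fun s => Z s = z), wt F n s ≤ 2 := by
    intro z hz
    rcases (S.filter (fun s => Z s = z)).eq_empty_or_nonempty with he | hne'
    · rw [he, Finset.sum_empty]; norm_num
    · obtain ⟨s0, hs0, hmin⟩ := Finset.exists_min_image _ (fun s : ℂ => s.im) hne'
      have hsub : S.filter (fun s => Z s = z) ⊆ {s0, I * (z.im : ℂ)} := by
        intro s hs
        have hs' := hs
        have hs0' := hs0
        rw [Finset.mem_filter] at hs' hs0'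
        rw [Finset.mem_insert, Finset.mem_singleton]
        rcases eq_or_lt_of_le (hmin s hs) with h1 | h1
        · left
          apply Complex.ext
          · rw [hre s hs'.1, hre s0 hs0'.1]
          · exact h1.symm
        · right
          obtain ⟨-, -, g, h5, -, h7⟩ := hZ s0 hs0'.1
          rw [hs0'.2] at h5
          obtain ⟨-, h8, -⟩ := hZ s hs'.1
          rw [hs'.2] at h8
          have h9 : z.im ≤ s.im := by
            by_contra hc
            push Not at hc
            apply h7 (s.im - s0.im) (by linarith) (by linarith)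
            have e : s0 + ((s.im - s0.im : ℝ) : ℂ) * I = s := by
              apply Complex.ext
              · simp [hre s hs'.1, hre s0 hs0'.1]
              · simp
            rw [e]
            exact (hS s hs'.1).1
          apply Complex.ext
          · simp [hre s hs'.1]
          · simp only [Complex.mul_im, Complex.I_re, Complex.I_im, Complex.ofReal_re, Complex.ofReal_im,
              mul_zero, zero_mul, one_mul, zero_add, add_zero]
            linarith
      calc ∑ s ∈ S.filter (fun s => Z s = z), wt F n s = ∑ s ∈ S.filter (fun s => Z s = z), (1 : ℝ) :=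
            Finset.sum_congr rfl fun s hs => hw1 s (Finset.mem_filter.1 hs).1
        _ = ((S.filter (fun s => Z s = z)).card : ℝ) := by
            rw [Finset.sum_const, nsmul_eq_mul, mul_one]
        _ ≤ 2 := by
            have h1 := (Finset.card_le_card hsub).trans Finset.card_le_two
            exact_mod_cast h1
  calc ∑ z ∈ W, ∑ s ∈ S.filter (fun s => Z s = z), wt F n s ≤ ∑ _z ∈ W, (2 : ℝ) :=
        Finset.sum_le_sum hfib
    _ = 2 * W.card := by rw [Finset.sum_const, nsmul_eq_mul]; ring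
    _ ≤ _ := by linarith

/-- change of `ω` -/
theorem nx_conv {n : ℕ} {ω ω' ε : ℝ} {s : ℂ} (hε : 0 < ε) (hε1 : ε ≤ 1 / 4) (hω : 2 / ε ≤ ω)
    (h : |ω' - ω| ≤ 1) (hx : Nx F n ω (3 * ε) s) : Nx F n ω' (4 * ε) s := by
  obtain ⟨g, hg, h1, h2, h3⟩ := hx
  refine ⟨g, hg, ?_, h2, h3⟩
  have hpi := Real.pi_pos
  have hω0 : 0 < ω := lt_of_lt_of_le (by positivity) hω
  rw [div_le_iff₀ hε] at hω
  have h4 := abs_le.1 h1
  have h5 : g * ω / Real.pi ≤ 2 := by linarith
  have h6 : g / Real.pi * ω ≤ ω * ε := by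
    have e : g / Real.pi * ω = g * ω / Real.pi := by ring
    rw [e]
    linarith
  have h7 : g / Real.pi ≤ ε := by
    have h8 : g / Real.pi * ω ≤ ε * ω := by linarith
    exact le_of_mul_le_mul_right h8 hω0
  have e : g * ω' / Real.pi - 1 = (g * ω / Real.pi - 1) + g / Real.pi * (ω' - ω) := by ring
  rw [e]
  refine (abs_add_le _ _).trans ?_
  rw [abs_mul, abs_of_pos (show 0 < g / Real.pi by positivity)]
  have h9 : g / Real.pi * |ω' - ω| ≤ ε * 1 := mul_le_mul h7 h (abs_nonneg _) hε.le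
  linarith

end Pool.Agent.U4.DG
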