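import Pool.Agent.Y671.LD.Fin
import Pool.Agent.W571.SD.SB1
import Pool.Agent.U4.UH.Sp

/-!
# The next zero of a high derivative at a good point
-/

set_option autoImplicit false

namespace Pool.Agent.U4.DG

open Complex Filter Topology MeasureTheory Set
open Pool.Agent.H24R2.DZ (ra NN)
open Pool.Agent.H986R2.K4 (QQ)
open Pool.Agent.W571.SD (nn_grow iter_shift)
open Pool.Agent.Y671.LD

/-- the shifted function is in the situation `QQ κ` -/
theorem toQQa {n : ℕ} {η η' κ : ℝ} {F : ℂ → ℂ} (hκ : 0 < κ) (hκ1 : κ ≤ 1 / 2) (hη : 0 ≤ η)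
    (hη1 : η ≤ κ / 100) (hη' : η ≤ η') (hN : NN n η F) (y : ℝ) (hy : |y| ≤ 1 / 100) :
    QQ κ 6 n η' (fun z => F (z + (y : ℂ) * I)) := by
  have hn0 : (0 : ℝ) ≤ n := Nat.cast_nonneg n
  have hyI : ‖(y : ℂ) * I‖ ≤ 1 / 100 := by
    rw [norm_mul, Complex.norm_I, mul_one, Complex.norm_real, Real.norm_eq_abs]; exact hy
  have hre : ∀ z : ℂ, (z + (y : ℂ) * I).re = z.re := by
    intro z; simp
  have key : ∀ w : ℂ, 1 / 1000 ≤ w.re → w.re ≤ 1 - κ → ‖w‖ ≤ 7 →
      ‖F w‖ ≤ ‖F 1‖ * Real.exp (-((κ - 8 * η) * n)) := by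
    intro w h1 h2 h3
    have h4 := nn_grow hN (a := 1) (b := w) (by norm_num) h1 (by simp) (by linarith)
    refine h4.trans (mul_le_mul_of_nonneg_left (Real.exp_le_exp.2 ?_) (norm_nonneg _))
    have h5 : (w - 1).re ≤ -κ := by
      rw [Complex.sub_re, Complex.one_re]; linarith
    have h6 : ‖w - 1‖ ≤ 8 := by
      refine (norm_sub_le _ _).trans ?_
      rw [norm_one]; linarith
    have h7 : (n : ℝ) * (w - 1).re ≤ n * (-κ) := mul_le_mul_of_nonneg_left h5 hn0
    have h8 : η * n * ‖w - 1‖ ≤ η * n * 8 := mul_le_mul_of_nonneg_left h6 (by positivity)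
    linarith
  have mid : ∀ w : ℂ, |w.re| ≤ 1 - κ → ‖w‖ ≤ 7 →
      ‖F w‖ ≤ ‖F 1‖ * Real.exp (-((κ - 8 * η) * n)) := by
    intro w hw hw2
    by_cases h0 : |w.re| ≤ 1 / 1000
    · refine (hN.near w h0 (by linarith)).trans
        (mul_le_mul_of_nonneg_left (Real.exp_le_exp.2 ?_) (norm_nonneg _))
      have : (κ - 8 * η) * n ≤ 9 / 10 * n := mul_le_mul_of_nonneg_right (by linarith) hn0
      linarith
    · push Not at h0
      rcases le_total 0 w.re with hs | hs
      · rw [abs_of_nonneg hs] at h0 hw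
        exact key w h0.le hw hw2
      · rw [abs_of_nonpos hs] at h0 hw
        have h1 := key (-((starRingEnd ℂ) w)) (by simpa using h0.le) (by simpa using hw)
          (by rw [norm_neg, RCLike.norm_conj]; exact hw2)
        rw [hN.symm, RCLike.norm_conj] at h1
        exact h1
  refine ⟨?_, ?_, ?_, ?_⟩
  · exact hN.diff.comp (differentiable_id.add_const _)
  · intro z
    have : -((starRingEnd ℂ) z) + (y : ℂ) * I = -((starRingEnd ℂ) (z + (y : ℂ) * I)) := by
      rw [map_add, map_mul, Complex.conj_I, Complex.conj_ofReal]; ring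
    show F (-((starRingEnd ℂ) z) + (y : ℂ) * I) = (starRingEnd ℂ) (F (z + (y : ℂ) * I))
    rw [this, hN.symm]
  · intro z h1 h2
    have h3 : ‖z + (y : ℂ) * I‖ ≤ 20 := (norm_add_le _ _).trans (by linarith)
    have h4 := hN.far (z + (y : ℂ) * I) (by rw [hre]; linarith) h3
    refine ⟨h4.1, ?_⟩
    have h5 : logDeriv (fun z => F (z + (y : ℂ) * I)) z = logDeriv F (z + (y : ℂ) * I) := by
      rw [logDeriv_apply, logDeriv_apply, deriv_comp_add_const]
    rw [h5]
    have h6 := h4.2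
    push_cast at h6
    exact h6.trans (mul_le_mul_of_nonneg_right hη' hn0)
  · intro z h1 h2
    show ‖F (z + (y : ℂ) * I)‖ ≤ ‖F (1 + (y : ℂ) * I)‖ * Real.exp (-(κ / 2 * n))
    have h3 := mid (z + (y : ℂ) * I) (by rw [hre]; exact h1)
      ((norm_add_le _ _).trans (by linarith))
    have h4 := nn_grow hN (a := 1 + (y : ℂ) * I) (b := 1) (by rw [hre]; norm_num) (by norm_num)
      ((norm_add_le _ _).trans (by rw [norm_one]; linarith)) (by simp)
    have h5 : (1 - (1 + (y : ℂ) * I)).re = 0 := by simp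
    have h6 : ‖(1 : ℂ) - (1 + (y : ℂ) * I)‖ ≤ 1 / 100 := by
      have : (1 : ℂ) - (1 + (y : ℂ) * I) = -((y : ℂ) * I) := by ring
      rw [this, norm_neg]; exact hyI
    rw [h5, mul_zero, zero_add] at h4
    have h7 : η * n * ‖(1 : ℂ) - (1 + (y : ℂ) * I)‖ ≤ η * n * (1 / 100) :=
      mul_le_mul_of_nonneg_left h6 (by positivity)
    calc ‖F (z + (y : ℂ) * I)‖ ≤ ‖F 1‖ * Real.exp (-((κ - 8 * η) * n)) := h3
      _ ≤ (‖F (1 + (y : ℂ) * I)‖ * Real.exp (η * n * (1 / 100))) * Real.exp (-((κ - 8 * η) * n)) := by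
          apply mul_le_mul_of_nonneg_right _ (Real.exp_pos _).le
          exact h4.trans (mul_le_mul_of_nonneg_left (Real.exp_le_exp.2 h7) (norm_nonneg _))
      _ = ‖F (1 + (y : ℂ) * I)‖ * Real.exp (η * n * (1 / 100) + -((κ - 8 * η) * n)) := by
          rw [mul_assoc, ← Real.exp_add]
      _ ≤ _ := by
          apply mul_le_mul_of_nonneg_left (Real.exp_le_exp.2 _) (norm_nonneg _)
          have : η * n ≤ κ / 100 * n := mul_le_mul_of_nonneg_right hη1 hn0
          nlinarith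

/-- `F` has a next zero on the axis above `s`, at the distance `g` with `g ω ≈ π`. -/
def Nx (F : ℂ → ℂ) (n : ℕ) (ω ε : ℝ) (s : ℂ) : Prop :=
  ∃ g : ℝ, 0 < g ∧ |g * ω / Real.pi - 1| ≤ ε ∧ iteratedDeriv n F (s + g * I) = 0 ∧
    ∀ g' : ℝ, 0 < g' → g' < g → iteratedDeriv n F (s + g' * I) ≠ 0

/-- from the local situation to `Nx` -/
theorem nx_of {ε : ℝ} (hε : 0 < ε) (hε1 : ε ≤ 1 / 4) : ∃ η : ℝ, ∃ n0 : ℕ, 0 < η ∧
    ∀ (n : ℕ) (F : ℂ → ℂ) (s : ℂ) (r : ℝ), n0 ≤ n → 0 < r → Differentiable ℂ F →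
      QQ ε 6 n η (fun z => F (s + r * z)) → iteratedDeriv n F s = 0 →
      Nx F n (n / r) (3 * ε) s := by
  obtain ⟨η, n0, hη, H⟩ := Pool.Agent.U4.UH.gap hε hε1 hε (by linarith) le_rfl
  refine ⟨η, n0, hη, ?_⟩
  intro n F s r hn hr hF hQ hs
  have hrc : (r : ℂ) ≠ 0 := by exact_mod_cast hr.ne'
  have hit : ∀ z : ℂ, iteratedDeriv n (fun z => F (s + r * z)) z = r ^ n * iteratedDeriv n F (s + r * z) :=
    fun z => iter_comp hF n s r z
  obtain ⟨-, h2⟩ := H n _ hn hQ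
  obtain ⟨y1, hy1, hz1, hz2, hz3⟩ := h2 (by rw [hit, mul_zero, add_zero, hs, mul_zero])
  have hpt : ∀ y : ℝ, s + r * (I * (y / r : ℝ)) = s + y * I := by
    intro y
    push_cast
    field_simp
  refine ⟨r * y1, by positivity, ?_, ?_, ?_⟩
  · have e : r * y1 * (n / r) = n * y1 := by field_simp
    rw [e]
    exact hz3
  · rw [hit] at hz1
    have h3 := (mul_eq_zero.1 hz1).resolve_left (pow_ne_zero _ hrc)
    have e : s + ((r * y1 : ℝ) : ℂ) * I = s + r * (I * y1) := by push_cast; ring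
    rw [e]
    exact h3
  · intro g' h3 h4 h5
    have h6 := hz2 (g' / r) (by positivity) (by rw [div_lt_iff₀ hr]; linarith)
    apply h6
    rw [hit, hpt, h5, mul_zero]

end Pool.Agent.U4.DG
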