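import Pool.Agent.U4.DG.Loc

/-!
# Zeros on the axis at heights which are not good at the scale `n`

Variant of a part of the starting module `Pool.Agent.Y671.LD.Mid` (by helper671).
-/

set_option autoImplicit false

namespace Pool.Agent.U4.DG

open Complex Filter Topology MeasureTheory Set
open Pool.Agent.H24R2.DZ (ra NN SCount)
open Pool.Agent.Y671.LD

variable {F : ℂ → ℂ}

/-- splitting a sum according to a cover by two kinds of sets -/
theorem split2 (w : ℂ → ℝ) (hw : ∀ s, 0 ≤ w s) (S : Finset ℂ) (pc : ℂ → Prop) (p : ℕ → ℂ → Prop)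
    [DecidablePred pc] [∀ i, DecidablePred (p i)] (J : ℕ)
    (h : ∀ s ∈ S, pc s ∨ ∃ i < J, p i s) :
    ∑ s ∈ S, w s ≤ ∑ s ∈ S.filter pc, w s +
      ∑ i ∈ Finset.range J, ∑ s ∈ S.filter (p i), w s := by
  have h1 := split3 w hw S pc (fun _ => False) p J (fun s hs => by
    rcases h s hs with h | h
    · exact Or.inl h
    · exact Or.inr (Or.inr h))
  simpa using h1

/-- Zeros on the axis near bad heights. -/
theorem midA {B K : ℝ} (hD : DD B K F) (h4 : SCount) (h5 : Unt F) (η0 : ℝ) (hη0 : 0 < η0) :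
    ∃ c C T0 : ℝ, ∃ n0 : ℕ, 0 < c ∧ 0 < C ∧ 2 ≤ T0 ∧ ∀ (T : ℝ) (n : ℕ), T0 ≤ T → n0 ≤ n →
    (n : ℝ) ≤ Real.log T / 400 → ∀ S : Finset ℂ,
    (∀ s ∈ S, iteratedDeriv n F s = 0 ∧ s.re = 0 ∧ ¬ GJ F η0 T n 0 s.im ∧ T < s.im ∧ s.im ≤ 2 * T) →
    ∑ s ∈ S, (analyticOrderNatAt (iteratedDeriv n F) s : ℝ) ≤ C * T * Real.exp (-(c * n)) * Real.log T := by
  classical
  have hdiff := hD.diff
  obtain ⟨η4, C4, hη4, hC4, hcount⟩ := h4
  obtain ⟨η, hηd⟩ : ∃ η, η = min η4 η0 := ⟨_, rfl⟩
  have hη : 0 < η := by rw [hηd]; exact lt_min hη4 hη0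
  have hηη4 : η ≤ η4 := by rw [hηd]; exact min_le_left _ _
  have hηη0 : η ≤ η0 := by rw [hηd]; exact min_le_right _ _
  obtain ⟨c1, C1, a1, T1, hc1, hC1, ha1, hT1, hsc1⟩ := hD.good η hη
  obtain ⟨C5, T5, hC5, hT5, hunit⟩ := h5 1 le_rfl
  have hq1 : Real.exp (-c1) < 1 := Real.exp_lt_one_iff.2 (by linarith)
  obtain ⟨Q, hQ⟩ : ∃ Q : ℝ, Q = 1 / (1 - Real.exp (-c1)) := ⟨_, rfl⟩
  have hQ0 : 0 < Q := by rw [hQ]; apply one_div_pos.2; linarith
  refine ⟨c1, 40000 * C5 * C1 + 50 * C4 * C1 * Q,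
    max T1 (max (2 * T5) 1000), max ⌈a1⌉₊ 1, hc1, by positivity, ?_, ?_⟩
  · exact le_trans (by norm_num) ((le_max_right _ _).trans (le_max_right _ _))
  intro T n hT hn hnL S hS
  -- unpack the sizes
  have hTT1 : T1 ≤ T := (le_max_left _ _).trans hT
  have hTT5 : 2 * T5 ≤ T := ((le_max_left _ _).trans (le_max_right _ _)).trans hT
  have hT1000 : 1000 ≤ T := ((le_max_right _ _).trans (le_max_right _ _)).trans hT
  have hT0 : 0 < T := by linarith
  have hna1 : a1 ≤ n := by
    have : ⌈a1⌉₊ ≤ n := (le_max_left _ _).trans hn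
    exact (Nat.le_ceil a1).trans (by exact_mod_cast this)
  have hn1 : 1 ≤ n := (le_max_right _ _).trans hn
  have hn1' : (1 : ℝ) ≤ n := by exact_mod_cast hn1
  set L := Real.log T with hL
  have hL400 : 400 ≤ L := by linarith
  have hL0 : 0 < L := by linarith
  have hlog3 : Real.log (3 * T) ≤ 2 * L := by
    rw [Real.log_mul (by norm_num) hT0.ne']
    have : Real.log 3 ≤ 2 := by
      have := Real.log_le_sub_one_of_pos (show (0 : ℝ) < 3 by norm_num)
      linarith
    linarith
  have hloghalf : ∀ x : ℝ, T / 2 ≤ x → (n : ℝ) ≤ 1 * Real.log x := by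
    intro x hx
    have h10 : Real.log (T / 2) ≤ Real.log x := Real.log_le_log (by positivity) hx
    have h11 : Real.log (T / 2) = L - Real.log 2 := by
      rw [Real.log_div hT0.ne' (by norm_num)]
    have h12 : Real.log 2 ≤ 1 := by
      have := Real.log_le_sub_one_of_pos (show (0 : ℝ) < 2 by norm_num)
      linarith
    linarith
  obtain ⟨J, hJ1, hJ2, hJ3⟩ := exists_J hn1 hnL
  -- the radii
  have hr : ∀ j : ℕ, ra T (2 ^ j * n) = 2 * (2 ^ j * n) / L := fun j => ra_eq _ _
  have hrpos : ∀ j : ℕ, 0 < ra T (2 ^ j * n) := by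
    intro j; rw [hr]; positivity
  have hrJ1 : ra T (2 ^ J * n) ≤ 1 / 100 := by
    rw [hr, div_le_iff₀ hL0]; linarith
  have hrJ2 : 1 / 200 < ra T (2 ^ J * n) := by
    rw [hr, lt_div_iff₀ hL0]; linarith
  have hpow : ∀ j : ℕ, j ≤ J → (2 : ℝ) ^ j * n ≤ L / 200 := by
    intro j hj
    refine le_trans ?_ hJ2
    apply mul_le_mul_of_nonneg_right _ (by positivity)
    exact pow_le_pow_right₀ (by norm_num) hj
  have hpow1 : ∀ j : ℕ, (n : ℝ) ≤ 2 ^ j * n := by
    intro j
    exact le_mul_of_one_le_left (by positivity) (one_le_pow₀ (by norm_num))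
  have hrj : ∀ j : ℕ, j ≤ J → ra T (2 ^ j * n) ≤ 1 / 100 := by
    intro j hj
    rw [hr, div_le_iff₀ hL0]
    have := hpow j hj
    linarith
  -- bad heights
  have hBvol : ∀ j : ℕ, j ≤ J → volume (BB F η T (2 ^ j * n)) ≤
      ENNReal.ofReal (C1 * T * Real.exp (-(c1 * (2 ^ j * n)))) := by
    intro j hj
    exact hsc1 T (2 ^ j * n) hTT1 (hna1.trans (hpow1 j)) (hpow j hj)
  -- covering of `S`
  have hcov : ∀ s ∈ S, ¬ GJ F η T n J s.im ∨
      ∃ i < J, ¬ GJ F η T n i s.im ∧ GJ F η T n (i + 1) s.im := by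
    intro s hs
    obtain ⟨hz, hre, hG0, hs1, hs2⟩ := hS s hs
    by_cases hc : GJ F η T n J s.im
    swap
    · exact Or.inl hc
    right
    have hG0' : ¬ GJ F η T n 0 s.im := by
      rintro ⟨t', h1, h2⟩
      exact hG0 ⟨t', h1, nn_mono (by positivity) hηη0 h2⟩
    set i := Nat.findGreatest (fun j => ¬ GJ F η T n j s.im) J with hi
    have hi1 : ¬ GJ F η T n i s.im :=
      Nat.findGreatest_spec (P := fun j => ¬ GJ F η T n j s.im) (Nat.zero_le J) hG0'
    have hi2 : i ≤ J := Nat.findGreatest_le J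
    have hi3 : i < J := by
      rcases hi2.lt_or_eq with h | h
      · exact h
      · rw [h] at hi1; exact absurd hc hi1
    refine ⟨i, hi3, hi1, ?_⟩
    by_contra hcon
    have := Nat.le_findGreatest (P := fun j => ¬ GJ F η T n j s.im) (Nat.succ_le_of_lt hi3) hcon
    rw [← hi] at this
    omega
  have hsplit := split2 (wt F n) (wt_nonneg F n) S (fun s => ¬ GJ F η T n J s.im)
    (fun i s => ¬ GJ F η T n i s.im ∧ GJ F η T n (i + 1) s.im) J hcov
  -- the class (c)
  have hbc : ∑ s ∈ S.filter (fun s => ¬ GJ F η T n J s.im), wt F n s ≤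
      40000 * C5 * C1 * T * Real.exp (-(c1 * n)) * L := by
    have hδ0 : 0 < ra T (2 ^ J * n) / 100 := by have := hrpos J; positivity
    have h10 := cover (wt F n) (wt_nonneg F n) (fun s => s.im) (ra T (2 ^ J * n) / 100) (4 * C5 * L)
      hδ0 (by positivity) (S.filter (fun s => ¬ GJ F η T n J s.im))
      (BB F η T (2 ^ J * n)) (C1 * T * Real.exp (-(c1 * (2 ^ J * n)))) (by positivity)
      (by
        intro s hs
        rw [Finset.mem_filter] at hs
        obtain ⟨-, -, -, hs1, hs2⟩ := hS s hs.1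
        exact int_sub_B (by linarith) hs1 hs2 rfl (by linarith) hs.2)
      (hBvol J le_rfl)
      (by
        intro s0 hs0
        obtain ⟨-, -, -, hs1, hs2⟩ := hS s0 ((Finset.filter_subset _ _) hs0)
        have h11 := window F zero_le_one hC5 hT5 hunit n (s0.im - 2 * (ra T (2 ^ J * n) / 100))
          (4 * (ra T (2 ^ J * n) / 100)) (by linarith) (hloghalf _ (by linarith)) (by positivity)
          ((S.filter (fun s => ¬ GJ F η T n J s.im)).filter
            (fun s' => |s'.im - s0.im| ≤ 2 * (ra T (2 ^ J * n) / 100))) (by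
            intro s hs
            rw [Finset.mem_filter] at hs
            obtain ⟨hz, -, -, hs3, hs4⟩ := hS s ((Finset.filter_subset _ _) hs.1)
            have := abs_le.1 hs.2
            exact ⟨by linarith, by linarith, hz⟩)
        refine h11.trans ?_
        have h12 : Real.log (s0.im - 2 * (ra T (2 ^ J * n) / 100) + 4 * (ra T (2 ^ J * n) / 100)) ≤
            2 * L := (Real.log_le_log (by linarith) (by linarith)).trans hlog3
        have h13 : 4 * (ra T (2 ^ J * n) / 100) + 1 ≤ 2 := by linarith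
        calc (4 * (ra T (2 ^ J * n) / 100) + 1) *
              (C5 * Real.log (s0.im - 2 * (ra T (2 ^ J * n) / 100) + 4 * (ra T (2 ^ J * n) / 100)))
            ≤ 2 * (C5 * (2 * L)) := by
              apply mul_le_mul h13 (mul_le_mul_of_nonneg_left h12 hC5.le) _ (by norm_num)
              apply mul_nonneg hC5.le (Real.log_nonneg (by linarith))
          _ = 4 * C5 * L := by ring)
    refine h10.trans ?_
    rw [div_le_iff₀ (by positivity)]
    have h14 : Real.exp (-(c1 * (2 ^ J * n))) ≤ Real.exp (-(c1 * n)) := by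
      apply Real.exp_le_exp.2
      have := mul_le_mul_of_nonneg_left (hpow1 J) hc1.le
      linarith
    have h15 : (1 : ℝ) / 10000 ≤ 2 * (ra T (2 ^ J * n) / 100) := by linarith
    have h16 : 0 ≤ 40000 * C5 * C1 * T * Real.exp (-(c1 * n)) * L := by positivity
    calc 4 * C5 * L * (C1 * T * Real.exp (-(c1 * (2 ^ J * n))))
        ≤ 4 * C5 * L * (C1 * T * Real.exp (-(c1 * n))) := by gcongr
      _ = 40000 * C5 * C1 * T * Real.exp (-(c1 * n)) * L * (1 / 10000) := by ring
      _ ≤ _ := mul_le_mul_of_nonneg_left h15 h16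
  -- the classes (b)
  have hbi : ∀ i ∈ Finset.range J, ∑ s ∈ S.filter (fun s => ¬ GJ F η T n i s.im ∧
      GJ F η T n (i + 1) s.im), wt F n s ≤
      50 * C4 * C1 * T * L * Real.exp (-(c1 * (2 ^ i * n))) := by
    intro i hi
    rw [Finset.mem_range] at hi
    have hri := hrpos i
    have hri1 := hrpos (i + 1)
    have hdouble : ra T (2 ^ (i + 1) * n) = 2 * ra T (2 ^ i * n) := by
      rw [hr, hr, pow_succ]; ring
    have hδ0 : 0 < ra T (2 ^ i * n) / 100 := by positivity
    have h10 := cover (wt F n) (wt_nonneg F n) (fun s => s.im) (ra T (2 ^ i * n) / 100)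
      (C4 * (2 ^ (i + 1) * n)) hδ0 (by positivity)
      (S.filter (fun s => ¬ GJ F η T n i s.im ∧ GJ F η T n (i + 1) s.im))
      (BB F η T (2 ^ i * n)) (C1 * T * Real.exp (-(c1 * (2 ^ i * n)))) (by positivity)
      (by
        intro s hs
        rw [Finset.mem_filter] at hs
        obtain ⟨-, -, -, hs1, hs2⟩ := hS s hs.1
        exact int_sub_B (by linarith) hs1 hs2 rfl (by linarith [hrj i hi.le]) hs.2.1)
      (hBvol i hi.le)
      (by
        intro s0 hs0
        rw [Finset.mem_filter] at hs0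
        obtain ⟨hs0S, -, ⟨t', ht1, ht2⟩⟩ := hs0
        have h11 := hcount (2 ^ (i + 1) * n) (ra T (2 ^ (i + 1) * n)) t' n F
          (hn1'.trans (hpow1 _)) (hpow1 _) hri1 hdiff (nn_mono (by positivity) hηη4 ht2)
          ((S.filter (fun s => ¬ GJ F η T n i s.im ∧ GJ F η T n (i + 1) s.im)).filter
            (fun s' => |s'.im - s0.im| ≤ 2 * (ra T (2 ^ i * n) / 100))) (by
            intro s hs
            rw [Finset.mem_filter, Finset.mem_filter] at hs
            obtain ⟨⟨hsS, -, -⟩, him⟩ := hs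
            obtain ⟨hz, hre, -, -, -⟩ := hS s hsS
            refine ⟨?_, hz⟩
            have h12 : (s - I * t').re = s.re := by simp
            have h13 : (s - I * t').im = s.im - t' := by simp
            have h14 := Complex.norm_le_abs_re_add_abs_im (s - I * t')
            rw [h12, h13, hre, abs_zero] at h14
            have h15 : |s.im - t'| ≤ |s.im - s0.im| + |s0.im - t'| := abs_sub_le _ _ _
            linarith)
        exact h11)
    refine h10.trans (le_of_eq ?_)
    rw [hr i, pow_succ]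
    field_simp
    ring
  have hbb : ∑ i ∈ Finset.range J, ∑ s ∈ S.filter (fun s => ¬ GJ F η T n i s.im ∧
      GJ F η T n (i + 1) s.im), wt F n s ≤
      50 * C4 * C1 * Q * T * Real.exp (-(c1 * n)) * L := by
    refine (Finset.sum_le_sum hbi).trans ?_
    rw [← Finset.mul_sum]
    calc 50 * C4 * C1 * T * L * ∑ i ∈ Finset.range J, Real.exp (-(c1 * (2 ^ i * n)))
        ≤ 50 * C4 * C1 * T * L * (Real.exp (-(c1 * n)) * Q) := by
          rw [hQ]
          exact mul_le_mul_of_nonneg_left (geo c1 hc1 n J hn1) (by positivity)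
      _ = _ := by ring
  calc ∑ s ∈ S, (analyticOrderNatAt (iteratedDeriv n F) s : ℝ) = ∑ s ∈ S, wt F n s := rfl
    _ ≤ _ := hsplit
    _ ≤ 40000 * C5 * C1 * T * Real.exp (-(c1 * n)) * L +
        50 * C4 * C1 * Q * T * Real.exp (-(c1 * n)) * L := add_le_add hbc hbb
    _ = _ := by ring

end Pool.Agent.U4.DG
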